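import Pool.Agent.Y797.TP.Gen
set_option autoImplicit false

/-!
Smoothness of the closures of the hypersurfaces in the products of projective spaces.
-/

namespace Pool.Agent.Y797.TP

open MvPolynomial (C X pderiv eval)

section prod

variable {k : Type*} [CommRing k] {ι κ : Type*} [DecidableEq κ]

theorem eval_pderiv_prod (S : Finset κ) (F : κ → MvPolynomial ι k) (i : ι) (z : ι → k) :
    eval z (pderiv i (∏ e ∈ S, F e)) =
      ∑ e ∈ S, (∏ e' ∈ S.erase e, eval z (F e')) * eval z (pderiv i (F e)) := by
  induction S using Finset.induction_on with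
  | empty => simp
  | insert a S ha ih =>
    rw [Finset.prod_insert ha, Derivation.leibniz, Finset.sum_insert ha, Finset.erase_insert ha]
    simp only [smul_eq_mul, map_add, map_mul, map_prod]
    rw [ih, add_comm]
    congr 1
    rw [Finset.mul_sum]
    refine Finset.sum_congr rfl fun e he => ?_
    have hne : e ≠ a := fun h => ha (h ▸ he)
    rw [Finset.erase_insert_of_ne hne.symm, Finset.prod_insert fun h =>
      ha (Finset.mem_of_mem_erase h)]
    ring

end prod

namespace Pencil

variable {K : Type*} [Field K] {s d : ℕ} (A : Pencil K s d)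

/-- The linear forms in the homogeneous coordinates. -/
noncomputable def hpm (e : E s d) : MvPolynomial (E s d) K := ∑ f, C (A.H e f) * X f

/-- The multihomogeneous equation `∏_e x_e - λ ∏_e M_e`. -/
noncomputable def heqn (lam : K) : MvPolynomial (E s d) K := ∏ e, X e - C lam * ∏ e, A.hpm e

/-- A complex vector which defines a point of the product of projective spaces. -/
def IsPoint (z : E s d → ℂ) : Prop := ∀ j, ∃ e, A.b e = j ∧ z e ≠ 0

/-- The zero set of `q` is smooth at `z` if `z` belongs to it. -/
def SmoothAt {ι : Type} (q : MvPolynomial ι ℂ) (z : ι → ℂ) : Prop :=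
  eval z q = 0 → ∃ e, eval z (pderiv e q) ≠ 0

/-- The closure of the hypersurface in the product of projective spaces is smooth (over `σ`). -/
def SmoothProj (lam : K) (σ : K →+* ℂ) : Prop :=
  ∀ z, A.IsPoint z → SmoothAt (MvPolynomial.map σ (A.heqn lam)) z

/-- The value of a linear form at a complex vector. -/
noncomputable def lf (σ : K →+* ℂ) (z : E s d → ℂ) (f : E s d) : ℂ := ∑ g, σ (A.H f g) * z g

/-- There is no point with two vanishing coordinates and two vanishing linear forms. -/
def Transversal (σ : K →+* ℂ) : Prop :=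
  ∀ z, A.IsPoint z → ∀ e e', e ≠ e' → z e = 0 → z e' = 0 → ∀ f f', f ≠ f' →
    A.lf σ z f = 0 → A.lf σ z f' ≠ 0

end Pencil

section main

variable {K : Type*} [Field K] {s d : ℕ} {A : Pencil K s d}

theorem eval_hpm (σ : K →+* ℂ) (z : E s d → ℂ) (f : E s d) :
    eval z (MvPolynomial.map σ (A.hpm f)) = A.lf σ z f := by
  unfold Pencil.hpm Pencil.lf
  simp only [map_sum, map_mul, MvPolynomial.map_C, MvPolynomial.map_X, MvPolynomial.eval_C,
    MvPolynomial.eval_X]

theorem eval_pderiv_hpm (σ : K →+* ℂ) (z : E s d → ℂ) (f e : E s d) :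
    eval z (pderiv e (MvPolynomial.map σ (A.hpm f))) = σ (A.H f e) := by
  classical
  unfold Pencil.hpm
  simp only [map_sum, map_mul, MvPolynomial.map_C, MvPolynomial.map_X, MvPolynomial.pderiv_C_mul,
    MvPolynomial.eval_C]
  rw [Finset.sum_eq_single e]
  · rw [MvPolynomial.pderiv_X_self, map_one, mul_one]
  · intro g _ hg
    rw [MvPolynomial.pderiv_X_of_ne hg, map_zero, mul_zero]
  · intro h
    exact absurd (Finset.mem_univ e) h

theorem eval_pderiv_heqn (σ : K →+* ℂ) (lam : K) (z : E s d → ℂ) (e : E s d) :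
    eval z (pderiv e (MvPolynomial.map σ (A.heqn lam))) =
      ∏ e' ∈ Finset.univ.erase e, z e' -
        σ lam * ∑ f, (∏ f' ∈ Finset.univ.erase f, eval z (MvPolynomial.map σ (A.hpm f'))) *
          σ (A.H f e) := by
  classical
  unfold Pencil.heqn
  rw [map_sub, map_mul, map_prod, map_prod, MvPolynomial.map_C, map_sub,
    MvPolynomial.pderiv_C_mul, map_sub, map_mul, MvPolynomial.eval_C, eval_pderiv_prod,
    eval_pderiv_prod]
  simp only [eval_pderiv_hpm]
  congr 1
  rw [Finset.sum_eq_single e]
  · simp only [MvPolynomial.map_X, MvPolynomial.eval_X, MvPolynomial.pderiv_X_self, map_one,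
      mul_one]
  · intro g _ hg
    rw [MvPolynomial.map_X, MvPolynomial.pderiv_X_of_ne hg, map_zero, mul_zero]
  · intro h
    exact absurd (Finset.mem_univ e) h

theorem eval_heqn (σ : K →+* ℂ) (lam : K) (z : E s d → ℂ) :
    eval z (MvPolynomial.map σ (A.heqn lam)) =
      ∏ e, z e - σ lam * ∏ e, eval z (MvPolynomial.map σ (A.hpm e)) := by
  unfold Pencil.heqn
  rw [map_sub, map_mul, map_prod, map_prod, MvPolynomial.map_C, map_sub, map_mul,
    MvPolynomial.eval_C, map_prod, map_prod]
  simp only [MvPolynomial.map_X, MvPolynomial.eval_X]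

theorem exists_smoothProj (hA : A.Valid) (σ : K →+* ℂ) (hT : A.Transversal σ) :
    ∃ ε : ℝ, 0 < ε ∧ ∀ lam : K, lam ≠ 0 → ‖σ lam‖ < ε → A.SmoothProj lam σ := by
  classical
  obtain ⟨ε, hε, Hs⟩ := exists_level_div
    (∏ e : E s d, (X e : MvPolynomial (E s d) ℂ)) (∏ e, MvPolynomial.map σ (A.hpm e))
  refine ⟨ε, hε, fun lam hlam hl z hz h0 => ?_⟩
  have hl0 : σ lam ≠ 0 := (map_ne_zero σ).2 hlam
  rw [eval_heqn, sub_eq_zero] at h0
  by_cases hS : ∏ e, z e = 0
  · -- points at the boundary
    have hT0 : ∏ e, eval z (MvPolynomial.map σ (A.hpm e)) = 0 := by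
      rw [hS] at h0
      exact (mul_eq_zero.1 h0.symm).resolve_left hl0
    obtain ⟨e0, -, he0⟩ := Finset.prod_eq_zero_iff.1 hS
    obtain ⟨f0, -, hf0⟩ := Finset.prod_eq_zero_iff.1 hT0
    by_cases hf : ∃ f1, f1 ≠ f0 ∧ eval z (MvPolynomial.map σ (A.hpm f1)) = 0
    · obtain ⟨f1, hf1, hf10⟩ := hf
      refine ⟨e0, ?_⟩
      rw [eval_pderiv_heqn]
      have h1 : ∀ f, ∏ f' ∈ Finset.univ.erase f, eval z (MvPolynomial.map σ (A.hpm f')) = 0 := by
        intro f
        by_cases h : f = f0
        · exact Finset.prod_eq_zero (Finset.mem_erase.2 ⟨h ▸ hf1, Finset.mem_univ _⟩) hf10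
        · exact Finset.prod_eq_zero (Finset.mem_erase.2 ⟨Ne.symm h, Finset.mem_univ _⟩) hf0
      simp only [h1, zero_mul, Finset.sum_const_zero, mul_zero, sub_zero]
      rw [Finset.prod_ne_zero_iff]
      intro e he he'
      rw [eval_hpm] at hf10 hf0
      exact hT z hz e e0 (Finset.ne_of_mem_erase he) he' he0 f1 f0 hf1 hf10 hf0
    · push Not at hf
      obtain ⟨e, he, hze⟩ := hz (A.b f0)
      refine ⟨e, ?_⟩
      rw [eval_pderiv_heqn]
      have h1 : ∏ e' ∈ Finset.univ.erase e, z e' = 0 := by
        refine Finset.prod_eq_zero (i := e0) (Finset.mem_erase.2 ⟨?_, Finset.mem_univ _⟩) he0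
        rintro rfl
        exact hze he0
      rw [h1, zero_sub, neg_ne_zero]
      refine mul_ne_zero hl0 ?_
      rw [Finset.sum_eq_single f0]
      · refine mul_ne_zero ?_ ((map_ne_zero σ).2 (ru_ne (hA.1 f0 e he.symm).1))
        rw [Finset.prod_ne_zero_iff]
        intro f hf'
        exact hf f (Finset.ne_of_mem_erase hf')
      · intro f _ hff
        rw [Finset.prod_eq_zero (Finset.mem_erase.2 ⟨Ne.symm hff, Finset.mem_univ _⟩) hf0, zero_mul]
      · intro h
        exact absurd (Finset.mem_univ _) h
  · -- interior points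
    have e1 : eval z (∏ e : E s d, (X e : MvPolynomial (E s d) ℂ)) = ∏ e, z e := by
      rw [map_prod]
      simp only [MvPolynomial.eval_X]
    have e2 : eval z (∏ e, MvPolynomial.map σ (A.hpm e)) =
        ∏ e, eval z (MvPolynomial.map σ (A.hpm e)) := map_prod _ _ _
    obtain ⟨i, hi⟩ := Hs (σ lam) hl0 hl z (fun h => hS (by rw [h0, ← e2, h, mul_zero]))
      (by rw [e1, e2, h0])
    refine ⟨i, fun h => hi ?_⟩
    have e3 : MvPolynomial.map σ (A.heqn lam) = (∏ e : E s d, (X e : MvPolynomial (E s d) ℂ)) -
        C (σ lam) * ∏ e, MvPolynomial.map σ (A.hpm e) := by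
      unfold Pencil.heqn
      rw [map_sub, map_mul, map_prod, map_prod, MvPolynomial.map_C]
      simp only [MvPolynomial.map_X]
    rw [e3, map_sub, MvPolynomial.pderiv_C_mul, map_sub, map_mul, MvPolynomial.eval_C] at h
    exact sub_eq_zero.1 h

end main

section sign

/-- The matrix with the blocks `(1, 1; 1, -1)`. -/
def signMat (K : Type*) [Field K] (d : ℕ) (e f : E d d) : K :=
  if Sum.elim id id e = Sum.elim id id f then (if e.isRight && f.isRight then -1 else 1) else 0

/-- The pencil `∏_j x_j = λ ∏_j (1 + x_j) (1 - x_j)` in the product of `d + 1` projective lines. -/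
def signPencil (K : Type*) [Field K] (d : ℕ) : Pencil K d d where
  blk := id
  H := signMat K d
  G := signMat K d
  c _ := 2

variable (K : Type*) [Field K] (d : ℕ)

theorem signPencil_valid [CharZero K] : (signPencil K d).Valid := by
  refine ⟨fun e f h => ?_, fun e f h => ?_, fun e f => ?_, fun _ => two_ne_zero⟩
  · have h' : Sum.elim id id e = Sum.elim id id f := h
    have h1 : IsRU (1 : K) := ⟨1, one_pos, one_pow _⟩
    have h2 : IsRU (-1 : K) := ⟨2, two_pos, by ring⟩
    have h3 : IsRU ((signPencil K d).H e f) := by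
      show IsRU (if Sum.elim id id e = Sum.elim id id f then
        (if e.isRight && f.isRight then (-1 : K) else 1) else 0)
      rw [if_pos h']
      split_ifs
      · exact h2
      · exact h1
    exact ⟨h3, h3⟩
  · have h' : Sum.elim id id e ≠ Sum.elim id id f := h
    exact ⟨if_neg h', if_neg h'⟩
  · rw [Fintype.sum_sum_type]
    show ∑ j : Fin (d + 1), (if j = Sum.elim id id e then
      (if (Sum.isRight (Sum.inl j : E d d)) && e.isRight then (-1 : K) else 1) else 0) *
        (if j = Sum.elim id id f then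
      (if (Sum.isRight (Sum.inl j : E d d)) && f.isRight then (-1 : K) else 1) else 0) +
      ∑ j : Fin (d + 1), (if j = Sum.elim id id e then
      (if (Sum.isRight (Sum.inr j : E d d)) && e.isRight then (-1 : K) else 1) else 0) *
        (if j = Sum.elim id id f then
      (if (Sum.isRight (Sum.inr j : E d d)) && f.isRight then (-1 : K) else 1) else 0) =
      if e = f then 2 else 0
    simp only [Sum.isRight_inl, Sum.isRight_inr, Bool.false_and, Bool.true_and]
    rcases e with e | e <;> rcases f with f | f
    all_goals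
      simp only [Sum.elim_inl, Sum.elim_inr, id, Sum.isRight_inl, Sum.isRight_inr,
        Sum.inl.injEq, Sum.inr.injEq, reduceCtorEq, if_true, if_false, mul_ite,
        mul_one, mul_zero, Finset.sum_ite_eq', Finset.mem_univ, Bool.false_eq_true,
        mul_neg]
      by_cases h : e = f
      · subst h
        simp
        try norm_num
      · have h' : ¬f = e := fun h2 => h h2.symm
        simp [h, h']

variable {K d}

theorem sign_l (σ : K →+* ℂ) (z : E d d → ℂ) (j : Fin (d + 1)) :
    (signPencil K d).lf σ z (Sum.inl j) = z (Sum.inl j) + z (Sum.inr j) := by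
  unfold Pencil.lf
  rw [Fintype.sum_sum_type]
  show ∑ x : Fin (d + 1), σ (if j = x then (1 : K) else 0) * z (Sum.inl x) +
    ∑ x : Fin (d + 1), σ (if j = x then (1 : K) else 0) * z (Sum.inr x) = _
  simp only [apply_ite σ, map_one, map_zero, ite_mul, one_mul, zero_mul, Finset.sum_ite_eq,
    Finset.mem_univ, if_true]

theorem sign_r (σ : K →+* ℂ) (z : E d d → ℂ) (j : Fin (d + 1)) :
    (signPencil K d).lf σ z (Sum.inr j) = z (Sum.inl j) - z (Sum.inr j) := by
  unfold Pencil.lf
  rw [Fintype.sum_sum_type]
  show ∑ x : Fin (d + 1), σ (if j = x then (1 : K) else 0) * z (Sum.inl x) +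
    ∑ x : Fin (d + 1), σ (if j = x then (-1 : K) else 0) * z (Sum.inr x) = _
  simp only [apply_ite σ, map_one, map_zero, map_neg, ite_mul, one_mul, zero_mul,
    Finset.sum_ite_eq, Finset.mem_univ, if_true]
  ring

/-- the factor of a coordinate or of a linear form -/
def blo : E d d ⊕ E d d → Fin (d + 1) := Sum.elim (Sum.elim id id) (Sum.elim id id)

/-- the value of a coordinate or of a linear form -/
def vl (z : E d d → ℂ) : E d d ⊕ E d d → ℂ :=
  Sum.elim z (Sum.elim (fun j => z (Sum.inl j) + z (Sum.inr j))
    fun j => z (Sum.inl j) - z (Sum.inr j))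

theorem blo_ne {z : E d d → ℂ} (hz : (signPencil K d).IsPoint z) {p q : E d d ⊕ E d d}
    (hpq : p ≠ q) (hp : vl z p = 0) (hq : vl z q = 0) : blo p ≠ blo q := by
  intro hb
  obtain ⟨e, he, hze⟩ := hz (blo p)
  suffices h : z (Sum.inl (blo p)) = 0 ∧ z (Sum.inr (blo p)) = 0 by
    rcases e with j | j
    · have hj : j = blo p := he
      rw [hj] at hze
      exact hze h.1
    · have hj : j = blo p := he
      rw [hj] at hze
      exact hze h.2
  clear he hze
  rcases p with (j | j) | (j | j) <;> rcases q with (i | i) | (i | i)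
  all_goals
    have hij : j = i := hb
    subst hij
    simp only [vl, Sum.elim_inl, Sum.elim_inr] at hp hq
    simp only [blo, Sum.elim_inl, Sum.elim_inr, id]
    first
      | exact absurd rfl hpq
      | exact ⟨by linear_combination hp, by linear_combination hq⟩
      | exact ⟨by linear_combination hq, by linear_combination hp⟩
      | exact ⟨by linear_combination hp, by linear_combination hq - hp⟩
      | exact ⟨by linear_combination hp, by linear_combination hp - hq⟩
      | exact ⟨by linear_combination hq, by linear_combination hp - hq⟩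
      | exact ⟨by linear_combination hq, by linear_combination hq - hp⟩
      | exact ⟨by linear_combination hq - hp, by linear_combination hp⟩
      | exact ⟨by linear_combination hq + hp, by linear_combination hp⟩
      | exact ⟨by linear_combination hp - hq, by linear_combination hq⟩
      | exact ⟨by linear_combination hp + hq, by linear_combination hq⟩
      | exact ⟨by linear_combination (hp + hq) / 2, by linear_combination (hp - hq) / 2⟩
      | exact ⟨by linear_combination (hp + hq) / 2, by linear_combination (hq - hp) / 2⟩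

theorem signPencil_transversal (hd : d ≤ 2) (σ : K →+* ℂ) :
    (signPencil K d).Transversal σ := by
  intro z hz e e' hee he he' f f' hff hf hf'
  have hv : ∀ g, (signPencil K d).lf σ z g = vl z (Sum.inr g) := by
    rintro (g | g)
    · exact sign_l σ z g
    · exact sign_r σ z g
  rw [hv] at hf hf'
  have he1 : vl z (Sum.inl e) = 0 := he
  have he2 : vl z (Sum.inl e') = 0 := he'
  have h1 := blo_ne hz (fun h => hee (Sum.inl_injective h)) he1 he2
  have h2 := blo_ne hz (fun h => hff (Sum.inr_injective h)) hf hf'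
  have h3 := blo_ne hz (Sum.inl_ne_inr) he1 hf
  have h4 := blo_ne hz (Sum.inl_ne_inr) he1 hf'
  have h5 := blo_ne hz (Sum.inl_ne_inr) he2 hf
  have h6 := blo_ne hz (Sum.inl_ne_inr) he2 hf'
  generalize blo (Sum.inl e : E d d ⊕ E d d) = x1 at *
  generalize blo (Sum.inl e' : E d d ⊕ E d d) = x2 at *
  generalize blo (Sum.inr f : E d d ⊕ E d d) = x3 at *
  generalize blo (Sum.inr f' : E d d ⊕ E d d) = x4 at *
  have l1 := x1.2
  have l2 := x2.2
  have l3 := x3.2
  have l4 := x4.2
  rw [Ne, Fin.ext_iff] at h1 h2 h3 h4 h5 h6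
  omega

end sign

end Pool.Agent.Y797.TP
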