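import Pool.Agent.Y797.GC.Sard
set_option autoImplicit false

/-!
The critical values of a rational function in several variables over a field of characteristic zero.
-/

namespace Pool.Agent.Y797.TP

open Pool.Agent.Y797.GC (D_ne_zero exists_field D_map)

section crit

variable {k : Type*} [Field k] {ι : Type*}

/-- Critical values of `P / Q`. -/
theorem exists_crit_div [CharZero k] [Finite ι] (P Q : MvPolynomial ι k) :
    ∃ D : Polynomial k, D ≠ 0 ∧ ∀ f : Localization.Away Q,
      f * algebraMap (MvPolynomial ι k) (Localization.Away Q) Q =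
        algebraMap (MvPolynomial ι k) (Localization.Away Q) P →
      Polynomial.aeval f D ∈ Ideal.span (Set.range fun i =>
        algebraMap (MvPolynomial ι k) (Localization.Away Q)
          (Q * MvPolynomial.pderiv i P - P * MvPolynomial.pderiv i Q)) := by
  classical
  have := Fintype.ofFinite ι
  set R := Localization.Away Q with hR
  have hQu : IsUnit (algebraMap (MvPolynomial ι k) R Q) :=
    IsLocalization.Away.algebraMap_isUnit (S := R) Q
  set f : R := algebraMap (MvPolynomial ι k) R P * ((hQu.unit⁻¹ : Rˣ) : R) with hf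
  have hfQ : f * algebraMap (MvPolynomial ι k) R Q = algebraMap (MvPolynomial ι k) R P := by
    rw [hf, mul_assoc, IsUnit.val_inv_mul, mul_one]
  set J : Ideal R := Ideal.span (Set.range fun i =>
    algebraMap (MvPolynomial ι k) R
      (Q * MvPolynomial.pderiv i P - P * MvPolynomial.pderiv i Q)) with hJ
  suffices h : ∃ D : Polynomial k, D ≠ 0 ∧ Polynomial.aeval f D ∈ J by
    obtain ⟨D, hD0, hD⟩ := h
    refine ⟨D, hD0, fun g hg => ?_⟩
    have h1 : g = f := by
      rw [← hfQ] at hg
      exact hQu.mul_right_cancel hg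
    rw [h1]
    exact hD
  by_contra hcon
  push Not at hcon
  set M : Submonoid (R ⧸ J) :=
    (nonZeroDivisors (Polynomial k)).map ((Ideal.Quotient.mk J).comp
      (Polynomial.aeval f : Polynomial k →ₐ[k] R).toRingHom) with hM
  have h0M : (0 : R ⧸ J) ∉ M := by
    rintro ⟨D, hD, h0⟩
    have hD0 : D ≠ 0 := nonZeroDivisors.ne_zero hD
    exact hcon D hD0 (Ideal.Quotient.eq_zero_iff_mem.1 h0)
  have hnt : Nontrivial (Localization M) := by
    rw [← not_subsingleton_iff_nontrivial]
    intro hs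
    exact h0M ((IsLocalization.subsingleton_iff (S := Localization M) (M := M)).1 hs)
  have : Algebra.EssFiniteType (MvPolynomial ι k) R :=
    Algebra.EssFiniteType.of_isLocalization _ (Submonoid.powers Q)
  have : Algebra.EssFiniteType k R := Algebra.EssFiniteType.comp k (MvPolynomial ι k) R
  have : Algebra.EssFiniteType k (R ⧸ J) := Algebra.EssFiniteType.comp k R (R ⧸ J)
  have : Algebra.EssFiniteType (R ⧸ J) (Localization M) :=
    Algebra.EssFiniteType.of_isLocalization _ M
  have : Algebra.EssFiniteType k (Localization M) :=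
    Algebra.EssFiniteType.comp k (R ⧸ J) (Localization M)
  obtain ⟨L, hL1, hL2, hL3, ⟨χ⟩⟩ := exists_field k (Localization M)
  set ψR : R →ₐ[k] L := χ.comp
    ((IsScalarTower.toAlgHom k (R ⧸ J) (Localization M)).comp (Ideal.Quotient.mkₐ k J)) with hψR
  have hψR1 : ∀ p, ψR p = χ (algebraMap (R ⧸ J) (Localization M) (Ideal.Quotient.mk J p)) :=
    fun p => rfl
  set ψ : MvPolynomial ι k →ₐ[k] L := ψR.comp (IsScalarTower.toAlgHom k (MvPolynomial ι k) R)
    with hψ
  have hψ1 : ∀ p, ψ p = ψR (algebraMap (MvPolynomial ι k) R p) := fun p => rfl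
  have htr : Transcendental k (ψR f) := by
    rintro ⟨D, hD0, hD⟩
    rw [Polynomial.aeval_algHom_apply] at hD
    have h1 : Ideal.Quotient.mk J (Polynomial.aeval f D) ∈ M :=
      ⟨D, mem_nonZeroDivisors_of_ne_zero hD0, rfl⟩
    have h2 : IsUnit (algebraMap (R ⧸ J) (Localization M)
        (Ideal.Quotient.mk J (Polynomial.aeval f D))) :=
      IsLocalization.map_units (Localization M) (⟨_, h1⟩ : M)
    have h3 := h2.map χ
    rw [← hψR1, hD] at h3
    exact not_isUnit_zero h3
  refine D_ne_zero k L (ψR f) htr ?_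
  -- the differential of `P / Q` vanishes
  have hQ0 : ψ Q ≠ 0 := (hQu.map ψR).ne_zero
  have e1 : ψR f * ψ Q = ψ P := by
    rw [hψ1, ← map_mul, hfQ]
    rfl
  have e2 := congrArg (KaehlerDifferential.D k L) e1
  rw [Derivation.leibniz, D_map, D_map] at e2
  have e3 : ψ Q • (ψR f • ∑ i, ψ (MvPolynomial.pderiv i Q) •
      KaehlerDifferential.D k L (ψ (MvPolynomial.X i))) =
      ψ Q • ∑ i, ψ (MvPolynomial.pderiv i P) •
        KaehlerDifferential.D k L (ψ (MvPolynomial.X i)) := by
    rw [Finset.smul_sum, Finset.smul_sum, Finset.smul_sum]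
    refine Finset.sum_congr rfl fun i _ => ?_
    have h6 : algebraMap (MvPolynomial ι k) R
      (Q * MvPolynomial.pderiv i P - P * MvPolynomial.pderiv i Q) ∈ J :=
      Ideal.subset_span ⟨i, rfl⟩
    have h5 : ψ (Q * MvPolynomial.pderiv i P - P * MvPolynomial.pderiv i Q) = 0 := by
      rw [hψ1, hψR1, Ideal.Quotient.eq_zero_iff_mem.2 h6, map_zero, map_zero]
    rw [map_sub, map_mul, map_mul, sub_eq_zero] at h5
    rw [smul_smul, smul_smul, smul_smul]
    congr 1
    rw [h5, ← e1]
    ring
  have e4 : ψ Q • (ψ Q • KaehlerDifferential.D k L (ψR f)) = 0 := by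
    have e5 := congrArg (fun x => ψ Q • x) e2
    simp only [smul_add] at e5
    rw [e3] at e5
    exact add_eq_left.1 e5
  rcases smul_eq_zero.1 e4 with h | h
  · exact absurd h hQ0
  · exact (smul_eq_zero.1 h).resolve_left hQ0

end crit

section level

theorem eval_rat {ι : Type*} (P Q : MvPolynomial ι ℂ) (z : ι → ℂ)
    (hQ : MvPolynomial.eval z Q ≠ 0) (f : Localization.Away Q)
    (hf : f * algebraMap (MvPolynomial ι ℂ) (Localization.Away Q) Q =
        algebraMap (MvPolynomial ι ℂ) (Localization.Away Q) P) (D : Polynomial ℂ) :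
    ∃ F : Localization.Away Q →+* ℂ, (∀ p, F (algebraMap (MvPolynomial ι ℂ)
      (Localization.Away Q) p) = MvPolynomial.eval z p) ∧
      F (Polynomial.aeval f D) = D.eval (MvPolynomial.eval z P / MvPolynomial.eval z Q) := by
  set F : Localization.Away Q →+* ℂ := IsLocalization.Away.lift Q (g := MvPolynomial.eval z)
    (isUnit_iff_ne_zero.2 hQ) with hF
  have hF1 : ∀ p, F (algebraMap (MvPolynomial ι ℂ) (Localization.Away Q) p) =
      MvPolynomial.eval z p := fun p => IsLocalization.Away.lift_eq _ _ _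
  refine ⟨F, hF1, ?_⟩
  have h1 : F f = MvPolynomial.eval z P / MvPolynomial.eval z Q := by
    rw [eq_div_iff hQ, ← hF1 Q, ← map_mul, hf, hF1]
  rw [Polynomial.aeval_def, Polynomial.hom_eval₂, h1]
  have h : F.comp (algebraMap ℂ (Localization.Away Q)) = RingHom.id ℂ := by
    ext x
    rw [RingHom.comp_apply, IsScalarTower.algebraMap_apply ℂ (MvPolynomial ι ℂ), hF1]
    simp
  rw [h]
  rfl

/-- For all small `η ≠ 0` there are no critical points of `P / Q` on the level set of `η`. -/
theorem exists_level_div {ι : Type*} [Finite ι] (P Q : MvPolynomial ι ℂ) :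
    ∃ ε : ℝ, 0 < ε ∧ ∀ η : ℂ, η ≠ 0 → ‖η‖ < ε → ∀ z : ι → ℂ, MvPolynomial.eval z Q ≠ 0 →
      MvPolynomial.eval z P = η * MvPolynomial.eval z Q →
      ∃ i, MvPolynomial.eval z (MvPolynomial.pderiv i P) ≠
        η * MvPolynomial.eval z (MvPolynomial.pderiv i Q) := by
  classical
  obtain ⟨D, hD0, hD⟩ := exists_crit_div P Q
  have hex : ∃ ε : ℝ, 0 < ε ∧ ∀ η : ℂ, η ≠ 0 → ‖η‖ < ε → D.eval η ≠ 0 := by
    by_cases hne : ((D.roots.toFinset.erase 0).image fun z => ‖z‖).Nonempty
    · refine ⟨((D.roots.toFinset.erase 0).image fun z => ‖z‖).min' hne, ?_,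
        fun η hη hη2 h0 => ?_⟩
      · obtain ⟨z, hz, hz2⟩ := Finset.mem_image.1 (Finset.min'_mem _ hne)
        rw [← hz2]
        exact norm_pos_iff.2 (Finset.ne_of_mem_erase hz)
      · refine absurd (Finset.min'_le ((D.roots.toFinset.erase 0).image fun z => ‖z‖) ‖η‖
          (Finset.mem_image_of_mem _ (Finset.mem_erase.2 ⟨hη, ?_⟩))) (not_le.2 hη2)
        rw [Multiset.mem_toFinset, Polynomial.mem_roots hD0]
        exact h0
    · refine ⟨1, one_pos, fun η hη _ h0 => hne ⟨‖η‖, Finset.mem_image_of_mem _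
        (Finset.mem_erase.2 ⟨hη, ?_⟩)⟩⟩
      rw [Multiset.mem_toFinset, Polynomial.mem_roots hD0]
      exact h0
  obtain ⟨ε, hε, h⟩ := hex
  refine ⟨ε, hε, fun η hη hη2 z hQz hz => ?_⟩
  by_contra hcon
  push Not at hcon
  have hQu : IsUnit (algebraMap (MvPolynomial ι ℂ) (Localization.Away Q) Q) :=
    IsLocalization.Away.algebraMap_isUnit (S := Localization.Away Q) Q
  set f : Localization.Away Q := algebraMap (MvPolynomial ι ℂ) (Localization.Away Q) P *
    ((hQu.unit⁻¹ : (Localization.Away Q)ˣ) : Localization.Away Q) with hf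
  have hfQ : f * algebraMap (MvPolynomial ι ℂ) (Localization.Away Q) Q =
      algebraMap (MvPolynomial ι ℂ) (Localization.Away Q) P := by
    rw [hf, mul_assoc, IsUnit.val_inv_mul, mul_one]
  obtain ⟨F, hF, hF2⟩ := eval_rat P Q z hQz f hfQ D
  have h1 : Ideal.span (Set.range fun i =>
        algebraMap (MvPolynomial ι ℂ) (Localization.Away Q)
          (Q * MvPolynomial.pderiv i P - P * MvPolynomial.pderiv i Q)) ≤ RingHom.ker F := by
    rw [Ideal.span_le]
    rintro _ ⟨i, rfl⟩
    show F _ = 0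
    rw [hF, map_sub, map_mul, map_mul, hcon i, hz]
    ring
  have h2 : F (Polynomial.aeval f D) = 0 := h1 (hD f hfQ)
  rw [hF2, hz, mul_div_cancel_right₀ _ hQz] at h2
  exact h η hη hη2 h2

end level

end Pool.Agent.Y797.TP
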