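import Pool.Agent.TH826.MK.Torus
set_option autoImplicit false

/-!
Definitions: pencils `∏ x = λ ∏ M` in products of projective spaces, where the `x` are the
coordinates, and the `M` are linear forms given by matrices of roots of unity which are inverse to
matrices of roots of unity up to scalars.
-/

namespace Pool.Agent.Y797.TP

open Pool.Agent.TH826.MK (KQ symb Torus)

open MvPolynomial (C X)

section away

variable (R : Type*) [CommRing R] (x : R)

/-- The localization `R[1/x]`. -/
def Away : Type _ := Localization.Away x

noncomputable instance : CommRing (Away R x) :=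
  show CommRing (Localization.Away x) from inferInstance

noncomputable instance : Algebra R (Away R x) :=
  show Algebra R (Localization.Away x) from inferInstance

instance : IsLocalization.Away x (Away R x) :=
  show IsLocalization.Away x (Localization.Away x) from inferInstance

end away

/-- The indices of the homogeneous coordinates of a product of `s + 1` projective spaces of total
dimension `d + 1`: the coordinates `inl j` (one in each factor `j`), and the coordinates `inr i`. -/
abbrev E (s d : ℕ) : Type := Fin (s + 1) ⊕ Fin (d + 1)

/-- The data of a pencil: the coordinate `inr i` belongs to the factor `blk i`; two square matrices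
`H` and `G`, indexed by the homogeneous coordinates, and a number `c_j` for each factor. -/
structure Pencil (K : Type*) [Field K] (s d : ℕ) where
  /-- the factor of the coordinate `inr i` -/
  blk : Fin (d + 1) → Fin (s + 1)
  /-- the matrix of the linear forms -/
  H : E s d → E s d → K
  /-- the matrix which is inverse up to scalars -/
  G : E s d → E s d → K
  /-- the scalars -/
  c : Fin (s + 1) → K

/-- A root of unity. -/
def IsRU {K : Type*} [Field K] (x : K) : Prop := ∃ m : ℕ, 0 < m ∧ x ^ m = 1

namespace Pencil

variable {K : Type*} [Field K] {s d : ℕ} (A : Pencil K s d) (lam : K)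

/-- The factor of a homogeneous coordinate. -/
def b : E s d → Fin (s + 1) := Sum.elim id A.blk

/-- The entries `H_{e,f}` and `G_{e,f}` are roots of unity if `e` and `f` belong to the same factor,
and `0` otherwise; `∑_g G_{g,e} H_{g,f}` is `c_j ≠ 0` if `e = f` belongs to the factor `j`, and `0` if
`e` and `f` are different. -/
def Valid : Prop :=
  (∀ e f, A.b e = A.b f → IsRU (A.H e f) ∧ IsRU (A.G e f)) ∧
    (∀ e f, A.b e ≠ A.b f → A.H e f = 0 ∧ A.G e f = 0) ∧
    (∀ e f, ∑ g, A.G g e * A.H g f = if e = f then A.c (A.b e) else 0) ∧ ∀ j, A.c j ≠ 0

/-- The homogeneous coordinates on the affine part on which the coordinates `inl j` are `1`. -/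
noncomputable def px : E s d → MvPolynomial (Fin (d + 1)) K := Sum.elim (fun _ => 1) X

/-- The linear forms `M_e = ∑_f H_{e,f} x_f` on the affine part. -/
noncomputable def pm (e : E s d) : MvPolynomial (Fin (d + 1)) K := ∑ f, C (A.H e f) * px f

/-- The product of all coordinates. -/
noncomputable def allX : MvPolynomial (Fin (d + 1)) K := ∏ i, X i

/-- The product of all linear forms. -/
noncomputable def allM : MvPolynomial (Fin (d + 1)) K := ∏ e, A.pm e

/-- The polynomial `∏_i x_i - λ ∏_e M_e`. -/
noncomputable def eqn : MvPolynomial (Fin (d + 1)) K := allX - C lam * A.allM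

/-- The coordinate ring `K[x] / (∏_i x_i - λ ∏_e M_e)`. -/
def CRing : Type _ := MvPolynomial (Fin (d + 1)) K ⧸ Ideal.span {A.eqn lam}

noncomputable instance : CommRing (A.CRing lam) := Ideal.Quotient.commRing _

/-- The functions defined by the polynomials. -/
noncomputable def mkC : MvPolynomial (Fin (d + 1)) K →+* A.CRing lam :=
  Ideal.Quotient.mk (Ideal.span {A.eqn lam})

/-- The product of the coordinates on the hypersurface. -/
noncomputable def den : A.CRing lam := A.mkC lam allX

/-- The coordinate ring of the part of the hypersurface on which no coordinate vanishes. -/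
def Open : Type _ := Away (A.CRing lam) (A.den lam)

noncomputable instance : CommRing (A.Open lam) :=
  show CommRing (Away (A.CRing lam) (A.den lam)) from inferInstance

noncomputable instance : Algebra (A.CRing lam) (A.Open lam) :=
  show Algebra (A.CRing lam) (Away (A.CRing lam) (A.den lam)) from inferInstance

instance : IsLocalization.Away (A.den lam) (A.Open lam) :=
  show IsLocalization.Away (A.den lam) (Away (A.CRing lam) (A.den lam)) from inferInstance

/-- The functions on the open part defined by the polynomials. -/
noncomputable def toO : MvPolynomial (Fin (d + 1)) K →+* A.Open lam :=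
  (algebraMap (A.CRing lam) (A.Open lam)).comp (A.mkC lam)

theorem toO_eqn : A.toO lam (A.eqn lam) = 0 := by
  unfold toO
  have h : A.mkC lam (A.eqn lam) = 0 :=
    Ideal.Quotient.eq_zero_iff_mem.2 (Ideal.mem_span_singleton_self _)
  rw [RingHom.comp_apply, h, map_zero]

theorem prod_of_hom {B : Type*} [CommRing B] (F : MvPolynomial (Fin (d + 1)) K →+* B)
    (h : F (A.eqn lam) = 0) : ∏ i, F (X i) = F (C lam) * ∏ e, F (A.pm e) := by
  unfold eqn allX allM at h
  rw [map_sub, map_mul, map_prod, map_prod, sub_eq_zero] at h
  exact h

theorem isUnit_allX : IsUnit (A.toO lam allX) :=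
  IsLocalization.Away.algebraMap_isUnit (S := A.Open lam) (A.den lam)

theorem isUnit_x (e : E s d) : IsUnit (A.toO lam (px e)) := by
  rcases e with j | i
  · show IsUnit (A.toO lam 1)
    rw [map_one]
    exact isUnit_one
  · exact isUnit_of_dvd_unit (map_dvd (A.toO lam) (Finset.dvd_prod_of_mem X
      (Finset.mem_univ i))) (A.isUnit_allX lam)

theorem isUnit_m (e : E s d) : IsUnit (A.toO lam (A.pm e)) := by
  refine isUnit_of_dvd_unit ?_ (A.isUnit_allX lam)
  have h := A.prod_of_hom lam (A.toO lam) (A.toO_eqn lam)
  unfold allX
  rw [map_prod, h]
  exact (Finset.dvd_prod_of_mem (fun e => A.toO lam (A.pm e)) (Finset.mem_univ e)).mul_left _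

/-- The coordinates as units. -/
noncomputable def ux (e : E s d) : (A.Open lam)ˣ := (A.isUnit_x lam e).unit

/-- The linear forms as units. -/
noncomputable def um (e : E s d) : (A.Open lam)ˣ := (A.isUnit_m lam e).unit

/-- The symbol of the quotients `y_{inr i} / y_{inl j}`, `j = blk i`, of homogeneous coordinates. -/
noncomputable def qsymb (y : E s d → (A.Open lam)ˣ) : KQ (A.Open lam) (d + 1) :=
  symb fun i => y (Sum.inr i) / y (Sum.inl (A.blk i))

/-- The symbol `{x_0, ..., x_d}` of the coordinates. -/
noncomputable def alpha : KQ (A.Open lam) (d + 1) := A.qsymb lam (A.ux lam)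

/-- The symbol of the quotients `M_{inr i} / M_{inl j}`, `j = blk i`, of the linear forms. -/
noncomputable def beta : KQ (A.Open lam) (d + 1) := A.qsymb lam (A.um lam)

end Pencil

end Pool.Agent.Y797.TP
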