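import Pool.Agent.Y797.TP.Tor
import Pool.Agent.Y797.TP.Crit
set_option autoImplicit false

/-!
The regulators at two places, smoothness, and units.
-/

namespace Pool.Agent.Y797.TP

open Pool.Agent.TH826.MK

open MvPolynomial (C X)

section main

variable {K : Type*} [Field K] {s d : ℕ} {A : Pencil K s d}

/-- An estimate for a determinant. -/
theorem det_ne {a b c e t : ℝ} (ht : t ≠ 0) (ha : |a - t| ≤ |t| / 3) (he : |e - t| ≤ |t| / 3)
    (hb : |b| ≤ |t| / 3) (hc : |c| ≤ |t| / 3) : a * e - b * c ≠ 0 := by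
  have h1 : 0 < |t| := abs_pos.2 ht
  have h2 : 2 / 3 * |t| ≤ |a| := by
    have := abs_sub_abs_le_abs_sub t a
    rw [abs_sub_comm] at this
    linarith
  have h3 : 2 / 3 * |t| ≤ |e| := by
    have := abs_sub_abs_le_abs_sub t e
    rw [abs_sub_comm] at this
    linarith
  intro h0
  have h4 : |a| * |e| = |b| * |c| := by
    rw [← abs_mul, ← abs_mul, sub_eq_zero.1 h0]
  have h5 : |b| * |c| ≤ (|t| / 3) * (|t| / 3) :=
    mul_le_mul hb hc (abs_nonneg _) (by positivity)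
  have h6 : (2 / 3 * |t|) * (2 / 3 * |t|) ≤ |a| * |e| :=
    mul_le_mul h2 h3 (by positivity) (abs_nonneg _)
  nlinarith

/-- Two places. -/
theorem exists_two (hA : A.Valid) (σ τ : K →+* ℂ) :
    ∃ ε : ℝ, 0 < ε ∧ ∀ lam : K, lam ≠ 0 → ‖σ lam‖ < ε → ε⁻¹ < ‖τ lam‖ →
      ∃ Γ Δ : Torus (A.Open lam) d, (∀ θ x, Γ.e θ (A.toO lam (C x)) = σ x) ∧
        (∀ θ x, Δ.e θ (A.toO lam (C x)) = τ x) ∧
        Γ.reg (A.alpha lam) * Δ.reg (A.beta lam) -
          Γ.reg (A.beta lam) * Δ.reg (A.alpha lam) ≠ 0 := by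
  have ht := cst_ne d
  have hε : 0 < |cst d| / 3 := by have := abs_pos.2 ht; positivity
  obtain ⟨η1, h1, H1⟩ := exists_small hA σ hε
  obtain ⟨η2, h2, H2⟩ := exists_large hA τ hε
  have hk : 0 < ‖τ (kap A)‖ := norm_pos_iff.2 ((map_ne_zero τ).2 (kap_ne hA))
  refine ⟨min η1 (η2 * ‖τ (kap A)‖), lt_min h1 (by positivity), fun lam hlam hs hl => ?_⟩
  obtain ⟨hl1, Γ, hΓ, g1, g2⟩ := H1 lam hlam (hs.trans_le (min_le_left _ _))
  have hl3 : ‖(τ (lam * kap A))⁻¹‖ < η2 := by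
    have h3 : (η2 * ‖τ (kap A)‖)⁻¹ < ‖τ lam‖ := by
      refine lt_of_le_of_lt ?_ hl
      exact inv_anti₀ (lt_min h1 (by positivity)) (min_le_right _ _)
    have h4 : 0 < ‖τ lam‖ := norm_pos_iff.2 ((map_ne_zero τ).2 hlam)
    rw [map_mul, norm_inv, norm_mul, inv_lt_comm₀ (by positivity) h2]
    rw [mul_inv, ← div_eq_mul_inv, div_lt_iff₀ hk] at h3
    exact h3
  obtain ⟨hl2, Δ, hΔ, g3, g4⟩ := H2 lam hlam hl3
  refine ⟨Γ, Δ, hΓ, hΔ, fun h0 => ?_⟩
  refine det_ne ht g1 g3 g2 g4 ?_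
  rw [div_mul_div_comm, div_mul_div_comm, ← sub_div, h0, zero_div]

/-- the points on which the forms do not vanish -/
theorem eval_map_pm (σ : K →+* ℂ) (z : Fin (d + 1) → ℂ) (q : MvPolynomial (Fin (d + 1)) K) :
    MvPolynomial.eval z (MvPolynomial.map σ q) = evP σ z q := by
  unfold evP
  rw [MvPolynomial.eval_map]
  rfl

/-- The open part is smooth for small `λ`. -/
theorem exists_smooth (A : Pencil K s d) (σ : K →+* ℂ) :
    ∃ ε : ℝ, 0 < ε ∧ ∀ lam : K, lam ≠ 0 → ‖σ lam‖ < ε → ∀ z : Fin (d + 1) → ℂ,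
      (∀ i, z i ≠ 0) → MvPolynomial.eval z (MvPolynomial.map σ (A.eqn lam)) = 0 →
      ∃ i, MvPolynomial.eval z (MvPolynomial.pderiv i (MvPolynomial.map σ (A.eqn lam))) ≠ 0 := by
  obtain ⟨ε, hε, H⟩ := exists_level_div
    (MvPolynomial.map σ (Pencil.allX (K := K) (d := d))) (MvPolynomial.map σ A.allM)
  refine ⟨ε, hε, fun lam hlam hl z hz h0 => ?_⟩
  have e1 : MvPolynomial.map σ (A.eqn lam) = MvPolynomial.map σ Pencil.allX -
      C (σ lam) * MvPolynomial.map σ A.allM := by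
    unfold Pencil.eqn
    rw [map_sub, map_mul, MvPolynomial.map_C]
  have e2 : MvPolynomial.eval z (MvPolynomial.map σ (Pencil.allX (K := K) (d := d))) =
      σ lam * MvPolynomial.eval z (MvPolynomial.map σ A.allM) := by
    rw [e1, map_sub, map_mul, MvPolynomial.eval_C] at h0
    exact sub_eq_zero.1 h0
  have e3 : MvPolynomial.eval z (MvPolynomial.map σ (Pencil.allX (K := K) (d := d))) ≠ 0 := by
    unfold Pencil.allX
    rw [map_prod, map_prod, Finset.prod_ne_zero_iff]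
    intro i _
    rw [MvPolynomial.map_X, MvPolynomial.eval_X]
    exact hz i
  obtain ⟨i, hi⟩ := H (σ lam) ((map_ne_zero σ).2 hlam) hl z
    (fun h => e3 (by rw [e2, h, mul_zero])) e2
  refine ⟨i, fun h => hi ?_⟩
  rw [e1, map_sub, MvPolynomial.pderiv_C_mul, map_sub, map_mul, MvPolynomial.eval_C] at h
  exact sub_eq_zero.1 h

end main

section units

open NumberField

variable {K : Type*} [Field K] [NumberField K]

theorem exists_unit' (σ τ : K →+* ℂ) (h : InfinitePlace.mk σ ≠ InfinitePlace.mk τ) :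
    ∃ u : K, IsIntegral ℤ u ∧ IsIntegral ℤ u⁻¹ ∧ u ≠ 0 ∧ ‖σ u‖ < 1 ∧ 1 < ‖τ u‖ := by
  obtain ⟨u, hu⟩ := Units.dirichletUnitTheorem.exists_unit K (InfinitePlace.mk τ)
  have h0 : (u : K) ≠ 0 := Units.coe_ne_zero u
  have hσ : ‖σ (u : K)‖ = InfinitePlace.mk σ (u : K) := (InfinitePlace.apply σ _).symm
  have hτ : ‖τ (u : K)‖ = InfinitePlace.mk τ (u : K) := (InfinitePlace.apply τ _).symm
  refine ⟨(u : K), (u : 𝓞 K).2, ?_, h0, ?_, ?_⟩
  · have h1 : ((u : K))⁻¹ = ((u⁻¹ : (𝓞 K)ˣ) : K) := by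
      rw [inv_eq_iff_eq_inv, eq_comm]
      refine inv_eq_of_mul_eq_one_left ?_
      rw [← Units.coe_mul, mul_inv_cancel, Units.coe_one]
    rw [h1]
    exact ((u⁻¹ : (𝓞 K)ˣ) : 𝓞 K).2
  · have h2 := hu _ h
    rw [hσ]
    by_contra hcon
    push Not at hcon
    exact absurd (Real.log_nonneg hcon) (not_le.2 h2)
  · rw [hτ]
    by_contra hcon
    push Not at hcon
    have hs := Units.sum_mult_mul_log u
    have h3 : ∑ w : InfinitePlace K, (w.mult : ℝ) * Real.log (w (u : K)) < 0 := by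
      refine Finset.sum_neg' (fun w _ => ?_) ⟨InfinitePlace.mk σ, Finset.mem_univ _, ?_⟩
      · by_cases hw : w = InfinitePlace.mk τ
        · rw [hw]
          exact mul_nonpos_of_nonneg_of_nonpos (Nat.cast_nonneg _)
            (Real.log_nonpos (apply_nonneg _ _) hcon)
        · exact mul_nonpos_of_nonneg_of_nonpos (Nat.cast_nonneg _) (hu w hw).le
      · exact mul_neg_of_pos_of_neg (Nat.cast_pos.2 InfinitePlace.mult_pos) (hu _ h)
    exact absurd hs h3.ne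

/-- Units which are small at one place and large at another one. -/
theorem exists_units (σ τ : K →+* ℂ) (h : InfinitePlace.mk σ ≠ InfinitePlace.mk τ) {ε : ℝ}
    (hε : 0 < ε) : {u : K | IsIntegral ℤ u ∧ IsIntegral ℤ u⁻¹ ∧ u ≠ 0 ∧ ‖σ u‖ < ε ∧
      ε⁻¹ < ‖τ u‖}.Infinite := by
  obtain ⟨u, h1, h2, h0, h3, h4⟩ := exists_unit' σ τ h
  obtain ⟨m, hm⟩ := exists_pow_lt_of_lt_one hε h3
  obtain ⟨n, hn⟩ := pow_unbounded_of_one_lt ε⁻¹ h4
  have hinj : Function.Injective fun k : ℕ => u ^ (m + n + k) := by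
    intro a b hab
    have h5 : ‖τ u‖ ^ (m + n + a) = ‖τ u‖ ^ (m + n + b) := by
      rw [← norm_pow, ← norm_pow, ← map_pow, ← map_pow]
      exact congrArg (fun x => ‖τ x‖) hab
    have h6 := pow_right_injective₀ (by linarith) h4.ne' h5
    omega
  refine (Set.infinite_range_of_injective hinj).mono ?_
  rintro _ ⟨k, rfl⟩
  refine ⟨h1.pow _, ?_, pow_ne_zero _ h0, ?_, ?_⟩
  · show IsIntegral ℤ (u ^ (m + n + k))⁻¹
    rw [← inv_pow]
    exact h2.pow _
  · show ‖σ (u ^ (m + n + k))‖ < ε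
    rw [map_pow, norm_pow]
    exact (pow_le_pow_of_le_one (norm_nonneg _) h3.le (by omega)).trans_lt hm
  · show ε⁻¹ < ‖τ (u ^ (m + n + k))‖
    rw [map_pow, norm_pow]
    exact hn.trans_le (pow_le_pow_right₀ h4.le (by omega))

end units

end Pool.Agent.Y797.TP
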