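import Pool.Agent.Y797.TP.Def
import Pool.Agent.Y797.TP.Pts
import Pool.Agent.TH826.SX.Final
import Pool.Agent.TH577.UA.Tor
set_option autoImplicit false

/-!
Tori in the complex points of the pencils, near the vertices of the coordinate simplex for small `λ`
and near the vertices of the dual simplex for large `λ`.
-/

namespace Pool.Agent.Y797.TP

open Pool.Agent.TH826.MK

open Pool.Agent.TH577.UA (mmon mrow yrow det_yrow)

open Pool.Agent.TH826.SX (pairing_close)

open MvPolynomial (C X)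

section gen

variable {d : ℕ}

/-- the coordinates of the chart -/
def wc (u : (Fin d → ℂ) × ℂ) : Fin (d + 1) → ℂ := Fin.cons u.2 u.1

theorem contDiff_wc (i : Fin (d + 1)) : ContDiff ℂ 2 fun u : (Fin d → ℂ) × ℂ => wc u i := by
  refine Fin.cases ?_ (fun k => ?_) i
  · exact contDiff_snd
  · exact (contDiff_apply ℂ ℂ k).comp contDiff_fst

theorem wc_zero : wc (0 : (Fin d → ℂ) × ℂ) = 0 := by
  funext i
  refine Fin.cases ?_ (fun k => ?_) i
  · rfl
  · rfl

theorem mmon_single (i : Fin (d + 1)) (u : (Fin d → ℂ) × ℂ) :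
    mmon (Pi.single i 1) u = wc u i := by
  unfold mmon wc
  refine Fin.cases ?_ (fun k => ?_) i
  · rw [Pi.single_eq_same, pow_one, Finset.prod_eq_one, mul_one]
    · rfl
    · intro k _
      rw [Pi.single_eq_of_ne (Fin.succ_ne_zero k), pow_zero]
  · rw [Pi.single_eq_of_ne (Fin.succ_ne_zero k).symm, pow_zero, one_mul,
      Finset.prod_eq_single k]
    · rw [Pi.single_eq_same, pow_one]
      rfl
    · intro l _ hl
      rw [Pi.single_eq_of_ne (fun h => hl (Fin.succ_injective _ h)), pow_zero]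
    · intro h
      exact absurd (Finset.mem_univ k) h

/-- the constant in the regulators -/
noncomputable def cst (d : ℕ) : ℝ :=
  (2 * Real.pi) ^ d * (Matrix.of (yrow 1 (fun _ : Fin d => 1))).det

theorem cst_ne (d : ℕ) : cst d ≠ 0 :=
  mul_ne_zero (pow_ne_zero _ (by have := Real.pi_pos; positivity)) (det_yrow one_pos _)

/-- The tori in the chart. -/
theorem exists_chart {E' : Type*} [Fintype E'] (g : E' → (Fin d → ℂ) × ℂ → ℂ)
    (hg : ∀ e, ContDiffAt ℂ 2 (g e) 0) (hg0 : ∀ e, g e 0 ≠ 0)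
    (t : Fin (d + 1) → (Fin d → ℂ) × ℂ → ℂ)
    (ht : ∀ e, ContDiffAt ℂ 2 (t e) 0) (ht0 : ∀ e, t e 0 ≠ 0) {ε : ℝ} (hε : 0 < ε) :
    ∃ η0 : ℝ, 0 < η0 ∧ ∀ η : ℂ, η ≠ 0 → ‖η‖ < η0 → Real.log ‖η‖ < 0 ∧
      ∃ U : (Fin d → ℝ) → (Fin d → ℂ) × ℂ, ContDiff ℝ 2 U ∧
        (∀ θ i, U (θ + Pi.single i 1) = U θ) ∧
        (∀ θ, (∏ i, wc (U θ) i) * ∏ e, g e (U θ) = η) ∧
        (∀ i, Good fun θ => wc (U θ) i) ∧ (∀ e, Good fun θ => g e (U θ)) ∧
        (∀ i, Good fun θ => t i (U θ)) ∧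
        |pairing (fun i θ => wc (U θ) i) / Real.log ‖η‖ - cst d| ≤ ε ∧
        |pairing (fun i θ => t i (U θ)) / Real.log ‖η‖| ≤ ε := by
  classical
  set N : Fin d → ℕ := fun _ => 1 with hN
  obtain ⟨δ1, hδ1, hclose1⟩ := pairing_close (Matrix.of fun l : Fin (d + 1) =>
    mrow 1 N (Pi.single l 1)) hε
  obtain ⟨δ2, hδ2, hclose2⟩ := pairing_close (Matrix.of fun _ : Fin (d + 1) =>
    mrow 1 N 0) hε
  set δ : ℝ := min δ1 δ2 / 2 with hδ
  have hδpos : 0 < δ := by
    have := lt_min hδ1 hδ2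
    rw [hδ]
    linarith
  have hlt1 : δ < δ1 := by
    have h1 := min_le_left δ1 δ2
    have h2 := lt_min hδ1 hδ2
    rw [hδ]
    linarith
  have hlt2 : δ < δ2 := by
    have h1 := min_le_right δ1 δ2
    have h2 := lt_min hδ1 hδ2
    rw [hδ]
    linarith
  obtain ⟨η0, hη0, hX⟩ := exists_points (d := d) (q := 1) (N := N)
    (ι := Fin (d + 1) ⊕ (E' ⊕ Fin (d + 1)))
    (H := Sum.elim (fun i u => wc u i) (Sum.elim g t))
    (h := Sum.elim (fun _ _ => 1) (Sum.elim g t))
    (μ := Sum.elim (fun i => Pi.single i 1) fun _ => 0)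
    (nn := Sum.elim (fun _ => 1) (Sum.elim (fun _ => 1) fun _ => 0))
    (fun e u => by
      rcases e with i | e | i
      · show wc u i = mmon (Pi.single i 1) u * 1
        rw [mmon_single, mul_one]
      · show g e u = mmon 0 u * g e u
        rw [Pool.Agent.TH577.UA.mmon_zero_eq (μ := 0) fun j => rfl, one_mul]
      · show t i u = mmon 0 u * t i u
        rw [Pool.Agent.TH577.UA.mmon_zero_eq (μ := 0) fun j => rfl, one_mul])
    (fun e => by
      rcases e with i | e | i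
      · exact contDiffAt_const
      · exact hg e
      · exact ht i)
    (fun e => by
      rcases e with i | e | i
      · exact one_ne_zero
      · exact hg0 e
      · exact ht0 i)
    (by
      rw [Fintype.sum_sum_type, Fintype.sum_sum_type]
      show ∑ i : Fin (d + 1), 1 * (Pi.single i 1 : Fin (d + 1) → ℕ) 0 +
        (∑ _e : E', 1 * 0 + ∑ _i : Fin (d + 1), 0 * 0) = 1
      simp only [one_mul, mul_zero, Finset.sum_const_zero, add_zero]
      rw [Finset.sum_eq_single 0]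
      · exact Pi.single_eq_same 0 1
      · intro i _ hi
        exact Pi.single_eq_of_ne (Ne.symm hi) _
      · intro h
        exact absurd (Finset.mem_univ _) h) one_pos
    (fun k => by
      rw [Fintype.sum_sum_type, Fintype.sum_sum_type]
      show ∑ i : Fin (d + 1), 1 * (Pi.single i 1 : Fin (d + 1) → ℕ) k.succ +
        (∑ _e : E', 1 * 0 + ∑ _i : Fin (d + 1), 0 * 0) = 1
      simp only [one_mul, mul_zero, Finset.sum_const_zero, add_zero]
      rw [Finset.sum_eq_single k.succ]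
      · exact Pi.single_eq_same k.succ 1
      · intro i _ hi
        exact Pi.single_eq_of_ne (Ne.symm hi) _
      · intro h
        exact absurd (Finset.mem_univ _) h) hδpos
  refine ⟨η0, hη0, fun η hη hη' => ?_⟩
  obtain ⟨hlog, U, hUc, hUp, hUe, hUg, hUest⟩ := hX η hη hη'
  refine ⟨hlog, U, hUc, hUp, fun θ => ?_, fun i => hUg (Sum.inl i),
    fun e => hUg (Sum.inr (Sum.inl e)), fun i => hUg (Sum.inr (Sum.inr i)), ?_, ?_⟩
  · have h1 := hUe θ
    rw [Fintype.prod_sum_type, Fintype.prod_sum_type] at h1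
    simp only [Sum.elim_inl, Sum.elim_inr, pow_one, pow_zero, Finset.prod_const_one,
      mul_one] at h1
    exact h1
  · have h1 := hclose1 (fun i θ => wc (U θ) i) (Real.log ‖η‖) hlog.ne
      (fun i => hUg (Sum.inl i)) (fun l θ => lt_of_le_of_lt (hUest (Sum.inl l) θ).1 hlt1)
      (fun l j θ => lt_of_le_of_lt ((hUest (Sum.inl l) θ).2 j) hlt1)
    have h2 : (Matrix.of fun l : Fin (d + 1) => mrow 1 N (Pi.single l 1)) =
        Matrix.of (yrow 1 N) := by
      ext l j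
      rw [Matrix.of_apply, Matrix.of_apply]
      unfold mrow
      rw [Finset.sum_eq_single l]
      · rw [Pi.single_eq_same, Nat.cast_one, one_mul]
      · intro i _ hi
        rw [Pi.single_eq_of_ne hi, Nat.cast_zero, zero_mul]
      · intro h
        exact absurd (Finset.mem_univ _) h
    rw [h2] at h1
    exact h1
  · have h1 := hclose2 (fun i θ => t i (U θ)) (Real.log ‖η‖) hlog.ne
      (fun i => hUg (Sum.inr (Sum.inr i)))
      (fun l θ => lt_of_le_of_lt (hUest (Sum.inr (Sum.inr l)) θ).1 hlt2)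
      (fun l j θ => lt_of_le_of_lt ((hUest (Sum.inr (Sum.inr l)) θ).2 j) hlt2)
    have h2 : (Matrix.of fun _ : Fin (d + 1) => mrow 1 N 0).det = 0 := by
      refine Matrix.det_eq_zero_of_row_eq_zero 0 fun j => ?_
      rw [Matrix.of_apply]
      unfold mrow
      exact Finset.sum_eq_zero fun i _ => by rw [Pi.zero_apply, Nat.cast_zero, zero_mul]
    rw [h2, mul_zero, sub_zero] at h1
    exact h1

end gen

section Ev

variable {K : Type*} [Field K] {s d : ℕ} {A : Pencil K s d} {lam : K} {σ : K →+* ℂ}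

/-- evaluation of the polynomials at a complex point -/
noncomputable def evP (σ : K →+* ℂ) (P : Fin (d + 1) → ℂ) : MvPolynomial (Fin (d + 1)) K →+* ℂ :=
  MvPolynomial.eval₂Hom σ P

/-- the complex points of the open part of the hypersurface -/
def Pt (A : Pencil K s d) (σ : K →+* ℂ) (lam : K) (P : Fin (d + 1) → ℂ) : Prop :=
  evP σ P (A.eqn lam) = 0 ∧ evP σ P (Pencil.allX (K := K)) ≠ 0

/-- evaluation of the functions on the hypersurface -/
noncomputable def evC {P : Fin (d + 1) → ℂ} (h : Pt A σ lam P) : A.CRing lam →+* ℂ :=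
  Ideal.Quotient.lift (Ideal.span {A.eqn lam}) (evP σ P) (by
    intro p hp
    have hle : Ideal.span {A.eqn lam} ≤ RingHom.ker (evP σ P) := by
      rw [Ideal.span_le]
      rintro q rfl
      exact h.1
    exact hle hp)

theorem evC_mk {P : Fin (d + 1) → ℂ} (h : Pt A σ lam P) (q : MvPolynomial (Fin (d + 1)) K) :
    evC h (A.mkC lam q) = evP σ P q :=
  Ideal.Quotient.lift_mk _ _ _

/-- evaluation of the functions on the open part of the hypersurface -/
noncomputable def evO {P : Fin (d + 1) → ℂ} (h : Pt A σ lam P) : A.Open lam →+* ℂ :=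
  IsLocalization.Away.lift (A.den lam) (g := evC h)
    (isUnit_iff_ne_zero.2 (by unfold Pencil.den; rw [evC_mk]; exact h.2))

theorem evO_alg {P : Fin (d + 1) → ℂ} (h : Pt A σ lam P) (b : A.CRing lam) :
    evO h (algebraMap (A.CRing lam) (A.Open lam) b) = evC h b :=
  IsLocalization.Away.lift_eq _ _ _

theorem evO_toO {P : Fin (d + 1) → ℂ} (h : Pt A σ lam P) (q : MvPolynomial (Fin (d + 1)) K) :
    evO h (A.toO lam q) = evP σ P q := by
  unfold Pencil.toO
  rw [RingHom.comp_apply, evO_alg, evC_mk]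

theorem evO_congr {P Q : Fin (d + 1) → ℂ} (hP : Pt A σ lam P) (hQ : Pt A σ lam Q) (h : P = Q) :
    evO hP = evO hQ := by
  subst h
  rfl

theorem contDiff_evP {n : ℕ} {P : (Fin n → ℝ) → Fin (d + 1) → ℂ}
    (hc : ∀ i, ContDiff ℝ 2 fun θ => P θ i) (q : MvPolynomial (Fin (d + 1)) K) :
    ContDiff ℝ 2 fun θ => evP σ (P θ) q := by
  unfold evP
  induction q using MvPolynomial.induction_on with
  | C c => simpa using contDiff_const
  | add p q hp hq => simpa using hp.add hq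
  | mul_X p k hp => simpa using hp.mul (hc k)

theorem contDiff_evO {n : ℕ} {P : (Fin n → ℝ) → Fin (d + 1) → ℂ}
    (hc : ∀ i, ContDiff ℝ 2 fun θ => P θ i)
    (hP : ∀ θ, Pt A σ lam (P θ)) (b : A.Open lam) : ContDiff ℝ 2 fun θ => evO (hP θ) b := by
  have hC : ∀ a : A.CRing lam, ContDiff ℝ 2 fun θ => evC (hP θ) a := by
    intro a
    obtain ⟨q, rfl⟩ : ∃ q, A.mkC lam q = a := Ideal.Quotient.mk_surjective a
    simp only [evC_mk]
    exact contDiff_evP hc q
  obtain ⟨⟨a, s'⟩, hs⟩ := IsLocalization.surj (Submonoid.powers (A.den lam)) b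
  obtain ⟨n, hn⟩ := s'.2
  have hne : ∀ θ, evC (hP θ) (s' : A.CRing lam) ≠ 0 := by
    intro θ
    rw [← hn]
    show evC (hP θ) ((A.mkC lam Pencil.allX) ^ n) ≠ 0
    rw [map_pow, evC_mk]
    exact pow_ne_zero _ (hP θ).2
  have e : (fun θ => evO (hP θ) b) =
      fun θ => evC (hP θ) a * (evC (hP θ) (s' : A.CRing lam))⁻¹ := by
    funext θ
    rw [eq_mul_inv_iff_mul_eq₀ (hne θ), ← evO_alg, ← evO_alg, ← map_mul]
    exact congrArg _ hs
  rw [e]
  exact (hC a).mul ((hC _).inv hne)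

/-- a torus in the open part of the hypersurface -/
noncomputable def mkT {n : ℕ} (P : (Fin n → ℝ) → Fin (d + 1) → ℂ)
    (hc : ∀ i, ContDiff ℝ 2 fun θ => P θ i)
    (hp : ∀ θ i, P (θ + Pi.single i 1) = P θ) (hP : ∀ θ, Pt A σ lam (P θ)) :
    Torus (A.Open lam) n where
  e θ := evO (hP θ)
  smooth b := contDiff_evO hc hP b
  periodic θ i := evO_congr _ _ (hp θ i)

/-- the homogeneous coordinates of a point -/
def hx (P : Fin (d + 1) → ℂ) : E s d → ℂ := Sum.elim (fun _ => 1) P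

/-- the linear forms at a point -/
noncomputable def hm (A : Pencil K s d) (σ : K →+* ℂ) (P : Fin (d + 1) → ℂ) (e : E s d) : ℂ :=
  ∑ f, σ (A.H e f) * hx P f

theorem evP_px (P : Fin (d + 1) → ℂ) (e : E s d) : evP σ P (Pencil.px e) = hx P e := by
  unfold evP Pencil.px hx
  rcases e with j | i
  · simp
  · simp

theorem evP_pm (P : Fin (d + 1) → ℂ) (e : E s d) : evP σ P (A.pm e) = hm A σ P e := by
  unfold Pencil.pm hm
  rw [map_sum]
  refine Finset.sum_congr rfl fun f _ => ?_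
  rw [map_mul, evP_px]
  congr 1
  unfold evP
  simp

theorem pt_iff (P : Fin (d + 1) → ℂ) : Pt A σ lam P ↔
    ∏ i, P i = σ lam * ∏ e, hm A σ P e ∧ ∀ i, P i ≠ 0 := by
  unfold Pt
  have h1 : evP σ P (Pencil.allX (K := K)) = ∏ i, P i := by
    unfold Pencil.allX evP
    rw [map_prod]
    simp
  have h2 : evP σ P (A.eqn lam) = ∏ i, P i - σ lam * ∏ e, hm A σ P e := by
    unfold Pencil.eqn Pencil.allM
    rw [map_sub, map_mul, h1, map_prod]
    simp only [evP_pm]
    congr 2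
    unfold evP
    simp
  rw [h1, h2, sub_eq_zero, Finset.prod_ne_zero_iff]
  simp

theorem fn_ux {n : ℕ} (P : (Fin n → ℝ) → Fin (d + 1) → ℂ)
    (hc : ∀ i, ContDiff ℝ 2 fun θ => P θ i)
    (hp : ∀ θ i, P (θ + Pi.single i 1) = P θ) (hP : ∀ θ, Pt A σ lam (P θ)) (e : E s d)
    (θ : Fin n → ℝ) :
    (mkT P hc hp hP).e θ (A.ux lam e : A.Open lam) = hx (P θ) e :=
  (evO_toO (hP θ) (Pencil.px e)).trans (evP_px (P θ) e)

theorem fn_um {n : ℕ} (P : (Fin n → ℝ) → Fin (d + 1) → ℂ)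
    (hc : ∀ i, ContDiff ℝ 2 fun θ => P θ i)
    (hp : ∀ θ i, P (θ + Pi.single i 1) = P θ) (hP : ∀ θ, Pt A σ lam (P θ)) (e : E s d)
    (θ : Fin n → ℝ) :
    (mkT P hc hp hP).e θ (A.um lam e : A.Open lam) = hm A σ (P θ) e :=
  (evO_toO (hP θ) (A.pm e)).trans (evP_pm (P θ) e)

theorem reg_qsymb {n : ℕ} (A : Pencil K s n) (lam : K) (Γ : Torus (A.Open lam) n)
    (y : E s n → (A.Open lam)ˣ) : Γ.reg (A.qsymb lam y) =
      pairing fun i θ => Γ.e θ (y (Sum.inr i) : A.Open lam) /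
        Γ.e θ (y (Sum.inl (A.blk i)) : A.Open lam) := by
  unfold Pencil.qsymb
  rw [Torus.reg_symb]
  unfold Torus.pair
  congr 1
  funext i θ
  unfold Torus.fn
  have h1 : Γ.e θ (y (Sum.inl (A.blk i)) : A.Open lam) ≠ 0 :=
    ((y (Sum.inl (A.blk i))).isUnit.map (Γ.e θ)).ne_zero
  rw [eq_div_iff h1, ← map_mul, ← Units.val_mul, div_mul_cancel]

end Ev

section main

variable {K : Type*} [Field K] {s d : ℕ} {A : Pencil K s d}

theorem ru_ne {x : K} (h : IsRU x) : x ≠ 0 := by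
  obtain ⟨m, hm, h⟩ := h
  rintro rfl
  rw [zero_pow hm.ne'] at h
  exact zero_ne_one h

theorem contDiff_hm (A : Pencil K s d) (σ : K →+* ℂ) (e : E s d) :
    ContDiff ℂ 2 fun u : (Fin d → ℂ) × ℂ => hm A σ (wc u) e := by
  unfold hm
  refine ContDiff.sum fun f _ => contDiff_const.mul ?_
  rcases f with j | i
  · exact contDiff_const
  · exact contDiff_wc i

theorem hm_zero (hA : A.Valid) (σ : K →+* ℂ) (e : E s d) : hm A σ (0 : Fin (d + 1) → ℂ) e ≠ 0 := by
  have h1 : hm A σ (0 : Fin (d + 1) → ℂ) e = σ (A.H e (Sum.inl (A.b e))) := by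
    unfold hm
    rw [Fintype.sum_sum_type]
    have e1 : ∑ i, σ (A.H e (Sum.inr i)) * hx (s := s) (0 : Fin (d + 1) → ℂ) (Sum.inr i) = 0 :=
      Finset.sum_eq_zero fun i _ => by
        show _ * (0 : ℂ) = 0
        rw [mul_zero]
    rw [e1, add_zero, Finset.sum_eq_single (A.b e)]
    · show _ * (1 : ℂ) = _
      rw [mul_one]
    · intro j _ hj
      rw [(hA.2.1 e (Sum.inl j) (Ne.symm hj)).1, map_zero, zero_mul]
    · intro h
      exact absurd (Finset.mem_univ _) h
  rw [h1]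
  exact (map_ne_zero σ).2 (ru_ne (hA.1 e (Sum.inl (A.b e)) rfl).1)

/-- The torus near the vertex of the coordinate simplex, for small `λ`. -/
theorem exists_small (hA : A.Valid) (σ : K →+* ℂ) {ε : ℝ} (hε : 0 < ε) :
    ∃ η0 : ℝ, 0 < η0 ∧ ∀ lam : K, lam ≠ 0 → ‖σ lam‖ < η0 → Real.log ‖σ lam‖ < 0 ∧
      ∃ Γ : Torus (A.Open lam) d, (∀ θ x, Γ.e θ (A.toO lam (C x)) = σ x) ∧
        |Γ.reg (A.alpha lam) / Real.log ‖σ lam‖ - cst d| ≤ ε ∧
        |Γ.reg (A.beta lam) / Real.log ‖σ lam‖| ≤ ε := by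
  classical
  have hm0 := hm_zero hA σ
  have hcm := contDiff_hm A σ
  obtain ⟨η0, hη0, hX⟩ := exists_chart (d := d) (E' := E s d)
    (fun e u => (hm A σ (wc u) e)⁻¹)
    (fun e => (hcm e).contDiffAt.inv (by rw [wc_zero]; exact hm0 e))
    (fun e => by
      show (hm A σ (wc 0) e)⁻¹ ≠ 0
      rw [wc_zero]
      exact inv_ne_zero (hm0 e))
    (fun i u => hm A σ (wc u) (Sum.inr i) / hm A σ (wc u) (Sum.inl (A.blk i)))
    (fun i => (hcm _).contDiffAt.div (hcm _).contDiffAt (by rw [wc_zero]; exact hm0 _))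
    (fun i => by
      show hm A σ (wc 0) (Sum.inr i) / hm A σ (wc 0) (Sum.inl (A.blk i)) ≠ 0
      rw [wc_zero]
      exact div_ne_zero (hm0 _) (hm0 _)) hε
  refine ⟨η0, hη0, fun lam hlam hlam2 => ?_⟩
  obtain ⟨hlog, U, hUc, hUp, hUe, hUg, hUm, -, h1, h2⟩ := hX (σ lam)
    ((map_ne_zero σ).2 hlam) hlam2
  refine ⟨hlog, ?_⟩
  set P : (Fin d → ℝ) → Fin (d + 1) → ℂ := fun θ => wc (U θ) with hP
  have hmne : ∀ θ e, hm A σ (P θ) e ≠ 0 := fun θ e => by
    have h3 := (hUm e).ne_zero θ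
    exact fun h0 => h3 (by
      show (hm A σ (P θ) e)⁻¹ = 0
      rw [h0, inv_zero])
  have hPt : ∀ θ, Pt A σ lam (P θ) := fun θ => by
    rw [pt_iff]
    refine ⟨?_, fun i => (hUg i).ne_zero θ⟩
    have h3 := hUe θ
    rw [Finset.prod_inv_distrib] at h3
    have h4 : ∏ e, hm A σ (P θ) e ≠ 0 := Finset.prod_ne_zero_iff.2 fun e _ => hmne θ e
    rw [← h3]
    show ∏ i, wc (U θ) i = (∏ i, wc (U θ) i) * (∏ e, hm A σ (P θ) e)⁻¹ * ∏ e, hm A σ (P θ) e
    rw [inv_mul_cancel_right₀ h4]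
  have hPc : ∀ i, ContDiff ℝ 2 fun θ => P θ i := fun i => (hUg i).smooth
  have hPp : ∀ θ i, P (θ + Pi.single i 1) = P θ := fun θ i => by
    simp only [hP, hUp]
  refine ⟨mkT P hPc hPp hPt, fun θ x => ?_, ?_, ?_⟩
  · refine (evO_toO (hPt θ) (C x)).trans ?_
    unfold evP
    simp
  · rw [show A.alpha lam = A.qsymb lam (A.ux lam) from rfl, reg_qsymb]
    have e : (fun i θ => (mkT P hPc hPp hPt).e θ (A.ux lam (Sum.inr i) : A.Open lam) /
        (mkT P hPc hPp hPt).e θ (A.ux lam (Sum.inl (A.blk i)) : A.Open lam)) =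
        fun i θ => wc (U θ) i := by
      funext i θ
      rw [fn_ux, fn_ux]
      exact div_one _
    rw [e]
    exact h1
  · rw [show A.beta lam = A.qsymb lam (A.um lam) from rfl, reg_qsymb]
    simp only [fn_um]
    exact h2

/-- the other product of the matrices -/
theorem mul_other (hA : A.Valid) (e g : E s d) :
    ∑ f, A.H e f * A.G g f = if e = g then A.c (A.b e) else 0 := by
  classical
  obtain ⟨hru, hz, hinv, hc0⟩ := hA
  set MH : Matrix (E s d) (E s d) K := Matrix.of A.H with hMH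
  set MG : Matrix (E s d) (E s d) K := (Matrix.of A.G).transpose with hMG
  set D : Matrix (E s d) (E s d) K := Matrix.diagonal fun e => (A.c (A.b e))⁻¹ with hD
  have h1 : D * MG * MH = 1 := by
    rw [Matrix.mul_assoc]
    ext e f
    rw [hD, Matrix.diagonal_mul, Matrix.mul_apply]
    have h2 : ∑ g, MG e g * MH g f = if e = f then A.c (A.b e) else 0 := hinv e f
    rw [h2, Matrix.one_apply]
    split_ifs with h
    · exact inv_mul_cancel₀ (hc0 _)
    · exact mul_zero _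
  have h3 : MH * (D * MG) = 1 := mul_eq_one_comm.1 h1
  have h4 := congrFun (congrFun h3 e) g
  rw [Matrix.mul_apply] at h4
  have h5 : ∀ f, MH e f * (D * MG) f g = (A.c (A.b g))⁻¹ * (A.H e f * A.G g f) := by
    intro f
    rw [hD, Matrix.diagonal_mul]
    show A.H e f * ((A.c (A.b f))⁻¹ * A.G g f) = _
    by_cases hfg : A.b g = A.b f
    · rw [hfg]
      ring
    · rw [(hz g f hfg).2]
      ring
  simp only [h5] at h4
  rw [← Finset.mul_sum, inv_mul_eq_iff_eq_mul₀ (hc0 _), Matrix.one_apply] at h4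
  rw [h4]
  split_ifs with h
  · rw [h, mul_one]
  · exact mul_zero _

/-- the dual linear forms at a point -/
noncomputable def hy (A : Pencil K s d) (σ : K →+* ℂ) (w : Fin (d + 1) → ℂ) (e : E s d) : ℂ :=
  ∑ g, σ (A.G g e) * hx w g

theorem contDiff_hy (A : Pencil K s d) (σ : K →+* ℂ) (e : E s d) :
    ContDiff ℂ 2 fun u : (Fin d → ℂ) × ℂ => hy A σ (wc u) e := by
  unfold hy
  refine ContDiff.sum fun f _ => contDiff_const.mul ?_
  rcases f with j | i
  · exact contDiff_const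
  · exact contDiff_wc i

theorem hy_zero (hA : A.Valid) (σ : K →+* ℂ) (e : E s d) : hy A σ (0 : Fin (d + 1) → ℂ) e ≠ 0 := by
  have h1 : hy A σ (0 : Fin (d + 1) → ℂ) e = σ (A.G (Sum.inl (A.b e)) e) := by
    unfold hy
    rw [Fintype.sum_sum_type]
    have e1 : ∑ i, σ (A.G (Sum.inr i) e) * hx (s := s) (0 : Fin (d + 1) → ℂ) (Sum.inr i) = 0 :=
      Finset.sum_eq_zero fun i _ => by
        show _ * (0 : ℂ) = 0
        rw [mul_zero]
    rw [e1, add_zero, Finset.sum_eq_single (A.b e)]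
    · show _ * (1 : ℂ) = _
      rw [mul_one]
    · intro j _ hj
      rw [(hA.2.1 (Sum.inl j) e hj).2, map_zero, zero_mul]
    · intro h
      exact absurd (Finset.mem_univ _) h
  rw [h1]
  exact (map_ne_zero σ).2 (ru_ne (hA.1 (Sum.inl (A.b e)) e rfl).2)

/-- the linear forms in terms of the dual coordinates -/
theorem hm_dual (hA : A.Valid) (σ : K →+* ℂ) (w : Fin (d + 1) → ℂ) (e : E s d) :
    ∑ f, σ (A.H e f) * hy A σ w f = σ (A.c (A.b e)) * hx w e := by
  unfold hy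
  simp only [Finset.mul_sum]
  rw [Finset.sum_comm]
  have h1 : ∀ g, ∑ f, σ (A.H e f) * (σ (A.G g f) * hx w g) =
      σ (if e = g then A.c (A.b e) else 0) * hx w g := by
    intro g
    rw [← mul_other hA e g, map_sum, Finset.sum_mul]
    refine Finset.sum_congr rfl fun f _ => ?_
    rw [map_mul]
    ring
  simp only [h1]
  rw [Finset.sum_eq_single e]
  · rw [if_pos rfl]
  · intro g _ hg
    rw [if_neg (Ne.symm hg), map_zero, zero_mul]
  · intro h
    exact absurd (Finset.mem_univ e) h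

/-- the point with given dual coordinates -/
noncomputable def dualPt (A : Pencil K s d) (σ : K →+* ℂ) (w : Fin (d + 1) → ℂ) :
    Fin (d + 1) → ℂ := fun i => hy A σ w (Sum.inr i) / hy A σ w (Sum.inl (A.blk i))

theorem hx_dualPt (A : Pencil K s d) (σ : K →+* ℂ) (w : Fin (d + 1) → ℂ)
    (hw : ∀ e, hy A σ w e ≠ 0) (e : E s d) :
    hx (dualPt A σ w) e = hy A σ w e / hy A σ w (Sum.inl (A.b e)) := by
  rcases e with j | i
  · exact (div_self (hw (Sum.inl j))).symm
  · rfl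

theorem hm_dualPt (hA : A.Valid) (σ : K →+* ℂ) (w : Fin (d + 1) → ℂ)
    (hw : ∀ e, hy A σ w e ≠ 0) (e : E s d) :
    hm A σ (dualPt A σ w) e = σ (A.c (A.b e)) * hx w e / hy A σ w (Sum.inl (A.b e)) := by
  rw [← hm_dual hA, Finset.sum_div]
  unfold hm
  refine Finset.sum_congr rfl fun f _ => ?_
  rw [hx_dualPt A σ w hw]
  by_cases hf : A.b e = A.b f
  · rw [hf, mul_div_assoc]
  · rw [(hA.2.1 e f hf).1, map_zero, zero_mul, zero_mul, zero_div]

/-- the product of the constants -/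
noncomputable def kap (A : Pencil K s d) : K := ∏ e, A.c (A.b e)

theorem kap_ne (hA : A.Valid) : kap A ≠ 0 := Finset.prod_ne_zero_iff.2 fun e _ => hA.2.2.2 _

/-- The torus near the vertex of the dual simplex, for large `λ`. -/
theorem exists_large (hA : A.Valid) (σ : K →+* ℂ) {ε : ℝ} (hε : 0 < ε) :
    ∃ η0 : ℝ, 0 < η0 ∧ ∀ lam : K, lam ≠ 0 → ‖(σ (lam * kap A))⁻¹‖ < η0 →
      Real.log ‖(σ (lam * kap A))⁻¹‖ < 0 ∧
      ∃ Γ : Torus (A.Open lam) d, (∀ θ x, Γ.e θ (A.toO lam (C x)) = σ x) ∧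
        |Γ.reg (A.beta lam) / Real.log ‖(σ (lam * kap A))⁻¹‖ - cst d| ≤ ε ∧
        |Γ.reg (A.alpha lam) / Real.log ‖(σ (lam * kap A))⁻¹‖| ≤ ε := by
  classical
  have hm0 := hy_zero hA σ
  have hcm := contDiff_hy A σ
  obtain ⟨η0, hη0, hX⟩ := exists_chart (d := d) (E' := E s d)
    (fun e u => (hy A σ (wc u) e)⁻¹)
    (fun e => (hcm e).contDiffAt.inv (by rw [wc_zero]; exact hm0 e))
    (fun e => by
      show (hy A σ (wc 0) e)⁻¹ ≠ 0
      rw [wc_zero]
      exact inv_ne_zero (hm0 e))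
    (fun i u => hy A σ (wc u) (Sum.inr i) / hy A σ (wc u) (Sum.inl (A.blk i)))
    (fun i => (hcm _).contDiffAt.div (hcm _).contDiffAt (by rw [wc_zero]; exact hm0 _))
    (fun i => by
      show hy A σ (wc 0) (Sum.inr i) / hy A σ (wc 0) (Sum.inl (A.blk i)) ≠ 0
      rw [wc_zero]
      exact div_ne_zero (hm0 _) (hm0 _)) hε
  refine ⟨η0, hη0, fun lam hlam hlam2 => ?_⟩
  have hkl : σ (lam * kap A) ≠ 0 := (map_ne_zero σ).2 (mul_ne_zero hlam (kap_ne hA))
  obtain ⟨hlog, U, hUc, hUp, hUe, hUg, hUm, hUt, h1, h2⟩ := hX (σ (lam * kap A))⁻¹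
    (inv_ne_zero hkl) hlam2
  refine ⟨hlog, ?_⟩
  have hyne : ∀ θ e, hy A σ (wc (U θ)) e ≠ 0 := fun θ e => by
    have h3 := (hUm e).ne_zero θ
    exact fun h0 => h3 (by
      show (hy A σ (wc (U θ)) e)⁻¹ = 0
      rw [h0, inv_zero])
  set P : (Fin d → ℝ) → Fin (d + 1) → ℂ := fun θ => dualPt A σ (wc (U θ)) with hP
  have hPt : ∀ θ, Pt A σ lam (P θ) := fun θ => by
    rw [pt_iff]
    refine ⟨?_, fun i => (hUt i).ne_zero θ⟩
    have h3 := hUe θ
    have h4 : ∏ e, hy A σ (wc (U θ)) e ≠ 0 := Finset.prod_ne_zero_iff.2 fun e _ => hyne θ e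
    have h5 : ∏ e, hy A σ (wc (U θ)) (Sum.inl (A.b e)) ≠ 0 :=
      Finset.prod_ne_zero_iff.2 fun _ _ => hyne θ _
    have h6 : ∏ i, P θ i = (∏ e, hy A σ (wc (U θ)) e) /
        ∏ e, hy A σ (wc (U θ)) (Sum.inl (A.b e)) := by
      rw [← Finset.prod_div_distrib]
      have h7 : ∀ e, hy A σ (wc (U θ)) e / hy A σ (wc (U θ)) (Sum.inl (A.b e)) = hx (P θ) e :=
        fun e => (hx_dualPt A σ (wc (U θ)) (hyne θ) e).symm
      simp only [h7]
      rw [Fintype.prod_sum_type]
      have h8 : ∏ j : Fin (s + 1), hx (s := s) (P θ) (Sum.inl j) = 1 :=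
        Finset.prod_eq_one fun j _ => rfl
      rw [h8, one_mul]
      rfl
    have h9 : ∏ e, hm A σ (P θ) e = σ (kap A) * (∏ i, wc (U θ) i) /
        ∏ e, hy A σ (wc (U θ)) (Sum.inl (A.b e)) := by
      have h10 : ∀ e, hm A σ (P θ) e = σ (A.c (A.b e)) * hx (wc (U θ)) e /
        hy A σ (wc (U θ)) (Sum.inl (A.b e)) := hm_dualPt hA σ _ (hyne θ)
      simp only [h10]
      rw [Finset.prod_div_distrib, Finset.prod_mul_distrib]
      congr 2
      · unfold kap
        rw [map_prod]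
      · rw [Fintype.prod_sum_type]
        have h8 : ∏ j : Fin (s + 1), hx (s := s) (wc (U θ)) (Sum.inl j) = 1 :=
          Finset.prod_eq_one fun j _ => rfl
        rw [h8, one_mul]
        rfl
    rw [h6, h9, mul_div_assoc']
    congr 1
    rw [Finset.prod_inv_distrib, ← div_eq_mul_inv, div_eq_iff h4] at h3
    rw [h3, ← mul_assoc, ← map_mul, ← mul_assoc, mul_inv_cancel₀ hkl, one_mul]
  have hPc : ∀ i, ContDiff ℝ 2 fun θ => P θ i := fun i => (hUt i).smooth
  have hPp : ∀ θ i, P (θ + Pi.single i 1) = P θ := fun θ i => by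
    simp only [hP, hUp]
  refine ⟨mkT P hPc hPp hPt, fun θ x => ?_, ?_, ?_⟩
  · refine (evO_toO (hPt θ) (C x)).trans ?_
    unfold evP
    simp
  · rw [show A.beta lam = A.qsymb lam (A.um lam) from rfl, reg_qsymb]
    have e : (fun i θ => (mkT P hPc hPp hPt).e θ (A.um lam (Sum.inr i) : A.Open lam) /
        (mkT P hPc hPp hPt).e θ (A.um lam (Sum.inl (A.blk i)) : A.Open lam)) =
        fun i θ => wc (U θ) i := by
      funext i θ
      rw [fn_um, fn_um, hm_dualPt hA σ _ (hyne θ), hm_dualPt hA σ _ (hyne θ)]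
      have h3 : hy A σ (wc (U θ)) (Sum.inl (A.blk i)) ≠ 0 := hyne θ _
      have h4 : σ (A.c (A.blk i)) ≠ 0 := (map_ne_zero σ).2 (hA.2.2.2 _)
      show σ (A.c (A.blk i)) * wc (U θ) i / hy A σ (wc (U θ)) (Sum.inl (A.blk i)) /
        (σ (A.c (A.blk i)) * 1 / hy A σ (wc (U θ)) (Sum.inl (A.blk i))) = wc (U θ) i
      field_simp
    rw [e]
    exact h1
  · rw [show A.alpha lam = A.qsymb lam (A.ux lam) from rfl, reg_qsymb]
    have e : (fun i θ => (mkT P hPc hPp hPt).e θ (A.ux lam (Sum.inr i) : A.Open lam) /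
        (mkT P hPc hPp hPt).e θ (A.ux lam (Sum.inl (A.blk i)) : A.Open lam)) =
        fun i θ => hy A σ (wc (U θ)) (Sum.inr i) / hy A σ (wc (U θ)) (Sum.inl (A.blk i)) := by
      funext i θ
      rw [fn_ux, fn_ux]
      exact div_one _
    rw [e]
    exact h2

end main

end Pool.Agent.Y797.TP
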