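import Pool.Agent.Y797.TP.Def
import Pool.Agent.Y797.IV.Blk
import Pool.Agent.TH826.MK.Variety
set_option autoImplicit false

/-!
The symbols of the coordinates and of the linear forms are unramified if `λ` is a unit.
-/

namespace Pool.Agent.Y797.TP

open scoped WithZero

open Pool.Agent.TH826.MK (KQ symb Unramified unitPart symb_update_mul symb_update_zpow)

open MvPolynomial (C X)

section gen

variable {L : Type*} [Field L] {n : ℕ}

theorem symb_update_root (a : Fin n → Lˣ) (i : Fin n) (z : Lˣ) {m : ℕ} (hm : 0 < m)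
    (h : z ^ m = 1) : symb (Function.update a i (z * a i)) = symb a := by
  rw [symb_update_mul, Function.update_eq_self]
  have h1 := symb_update_zpow a i z (m : ℤ)
  rw [zpow_natCast, h] at h1
  have h2 := symb_update_zpow a i 1 0
  rw [zpow_zero, Int.cast_zero, zero_smul] at h2
  rw [h2] at h1
  have hm' : (((m : ℤ)) : ℚ) ≠ 0 := by exact_mod_cast hm.ne'
  have h3 : symb (Function.update a i z) = 0 := (smul_eq_zero.1 h1.symm).resolve_left hm'
  rw [h3, zero_add]

theorem symb_root (a : Fin n → Lˣ) (z : Fin n → Lˣ) (hz : ∀ i, ∃ m : ℕ, 0 < m ∧ z i ^ m = 1)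
    (S : Finset (Fin n)) : symb (fun i => if i ∈ S then z i * a i else a i) = symb a := by
  classical
  induction S using Finset.induction_on with
  | empty => simp
  | insert j S hj ih =>
    obtain ⟨m, hm, h⟩ := hz j
    rw [← ih, ← symb_update_root (fun i => if i ∈ S then z i * a i else a i) j (z j) hm h]
    congr 1
    funext i
    by_cases hi : i = j
    · subst hi
      simp [hj]
    · simp [hi]

variable (v : Valuation L ℤᵐ⁰)

theorem val_root {z : L} {m : ℕ} (hm : 0 < m) (h : z ^ m = 1) : v z = 1 := by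
  have h1 : v z ^ m = 1 := by rw [← map_pow, h, map_one]
  exact (pow_eq_one_iff.1 h1).resolve_right hm.ne'

/-- products of not larger elements -/
theorem eq_of_prod_eq {ι : Type*} [Fintype ι] {x y : ι → ℤᵐ⁰} (hxy : ∀ i, x i ≤ y i)
    (hy : ∀ i, y i ≠ 0) (h : ∏ i, y i ≤ ∏ i, x i) (i : ι) : x i = y i := by
  classical
  by_contra hne
  have hlt : x i < y i := lt_of_le_of_ne (hxy i) hne
  have h1 : ∏ j, x j < ∏ j, y j := by
    rw [← Finset.mul_prod_erase _ _ (Finset.mem_univ i),
      ← Finset.mul_prod_erase _ y (Finset.mem_univ i)]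
    have h2 : ∏ j ∈ Finset.univ.erase i, x j ≤ ∏ j ∈ Finset.univ.erase i, y j :=
      Finset.prod_le_prod' fun j _ => hxy j
    have h3 : ∏ j ∈ Finset.univ.erase i, y j ≠ 0 := Finset.prod_ne_zero_iff.2 fun j _ => hy j
    calc x i * ∏ j ∈ Finset.univ.erase i, x j ≤ x i * ∏ j ∈ Finset.univ.erase i, y j :=
          mul_le_mul' le_rfl h2
      _ < y i * ∏ j ∈ Finset.univ.erase i, y j := mul_lt_mul_of_pos_right hlt (zero_lt_iff.2 h3)
  exact absurd h1 (not_lt.2 h)

end gen

section core

variable {K : Type*} [Field K] {s d : ℕ} {A : Pencil K s d}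

variable {L : Type*} [Field L] (v : Valuation L ℤᵐ⁰)

/-- A relation with roots of unity between the homogeneous coordinates of one factor. -/
theorem mem_of_relation (y : E s d → Lˣ) (R : E s d → L) {j : Fin (s + 1)}
    (hR : ∀ f, A.b f = j → ∃ m : ℕ, 0 < m ∧ R f ^ m = 1) (hR0 : ∀ f, A.b f ≠ j → R f = 0)
    {f0 : E s d} (hf0 : A.b f0 = j) (hrel : v (∑ f, R f * y f) < v (y f0 : L)) :
    symb (fun i => y (Sum.inr i) / y (Sum.inl (A.blk i))) ∈ unitPart v (d + 1) := by
  classical
  have hRne : ∀ f, A.b f = j → R f ≠ 0 := by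
    intro f hf h0
    obtain ⟨m, hm, h⟩ := hR f hf
    rw [h0, zero_pow hm.ne'] at h
    exact zero_ne_one h
  have hbl : A.b (Sum.inl j) = j := rfl
  have hRl := hRne (Sum.inl j) hbl
  set ρ : Fin (d + 1) → Lˣ := fun i => if hi : A.blk i = j then
    -(Units.mk0 (R (Sum.inr i)) (hRne _ hi) / Units.mk0 (R (Sum.inl j)) hRl) else 1 with hρ
  have hρ1 : ∀ i, ∃ m : ℕ, 0 < m ∧ ρ i ^ m = 1 := by
    intro i
    by_cases hi : A.blk i = j
    · obtain ⟨m1, hm1, h1⟩ := hR (Sum.inr i) hi
      obtain ⟨m2, hm2, h2⟩ := hR (Sum.inl j) hbl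
      refine ⟨2 * (m1 * m2), by positivity, ?_⟩
      have e1 : (Units.mk0 (R (Sum.inr i)) (hRne _ hi)) ^ m1 = 1 := by
        ext
        simpa using h1
      have e2 : (Units.mk0 (R (Sum.inl j)) hRl) ^ m2 = 1 := by
        ext
        simpa using h2
      simp only [hρ, dif_pos hi]
      rw [pow_mul, neg_sq, ← pow_mul, div_pow]
      have e3 : (Units.mk0 (R (Sum.inr i)) (hRne _ hi)) ^ (2 * (m1 * m2)) = 1 := by
        rw [show 2 * (m1 * m2) = m1 * (2 * m2) by ring, pow_mul, e1, one_pow]
      have e4 : (Units.mk0 (R (Sum.inl j)) hRl) ^ (2 * (m1 * m2)) = 1 := by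
        rw [show 2 * (m1 * m2) = m2 * (2 * m1) by ring, pow_mul, e2, one_pow]
      rw [e3, e4, div_one]
    · exact ⟨1, one_pos, by simp only [hρ, dif_neg hi, pow_one]⟩
  set J : Finset (Fin (d + 1)) := Finset.univ.filter fun i => A.blk i = j with hJ
  rw [← symb_root (fun i => y (Sum.inr i) / y (Sum.inl (A.blk i))) ρ hρ1 J]
  set z : Fin (d + 1) → Lˣ := fun i => if hi : A.blk i = j then
    Units.mk0 (R (Sum.inr i)) (hRne _ hi) * y (Sum.inr i) else 1 with hz
  set z0 : Lˣ := -(Units.mk0 (R (Sum.inl j)) hRl * y (Sum.inl j)) with hz0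
  have hsum : (z0 : L) - ∑ k ∈ J, (z k : L) = -∑ f, R f * y f := by
    rw [Fintype.sum_sum_type]
    have e1 : ∑ j', R (Sum.inl j') * (y (Sum.inl j') : L) = R (Sum.inl j) * y (Sum.inl j) := by
      rw [Finset.sum_eq_single j]
      · intro j' _ hj'
        rw [hR0 (Sum.inl j') hj', zero_mul]
      · intro h
        exact absurd (Finset.mem_univ j) h
    have e2 : ∑ i, R (Sum.inr i) * (y (Sum.inr i) : L) = ∑ k ∈ J, (z k : L) := by
      rw [hJ, Finset.sum_filter]
      refine Finset.sum_congr rfl fun i _ => ?_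
      by_cases hi : A.blk i = j
      · simp only [hz, dif_pos hi, if_pos hi, Units.val_mul, Units.val_mk0]
      · rw [if_neg hi, hR0 (Sum.inr i) hi, zero_mul]
    rw [e1, e2, hz0, Units.val_neg, Units.val_mul, Units.val_mk0]
    ring
  have hvR : ∀ f, A.b f = j → v (R f) = 1 := fun f hf => by
    obtain ⟨m, hm, h⟩ := hR f hf
    exact val_root v hm h
  have hvz : ∀ i, A.blk i = j → v (z i : L) = v (y (Sum.inr i) : L) := by
    intro i hi
    simp only [hz, dif_pos hi, Units.val_mul, Units.val_mk0, map_mul]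
    rw [hvR (Sum.inr i) hi, one_mul]
  have hvz0 : v (z0 : L) = v (y (Sum.inl j) : L) := by
    rw [hz0, Units.val_neg, Valuation.map_neg, Units.val_mul, Units.val_mk0, map_mul, hvR _ hbl,
      one_mul]
  have hsm : v ((z0 : L) - ∑ k ∈ J, (z k : L)) < v (y f0 : L) := by
    rw [hsum, Valuation.map_neg]
    exact hrel
  have hl : ∃ l ∈ J, v ((z0 : L) - ∑ k ∈ J, (z k : L)) < v (z l : L) := by
    rcases f0 with j' | i'
    · have hj' : j' = j := hf0
      subst hj'
      rw [← hvz0] at hsm
      by_contra hcon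
      push Not at hcon
      have h1 : v (∑ k ∈ J, (z k : L)) ≤ v ((z0 : L) - ∑ k ∈ J, (z k : L)) :=
        Valuation.map_sum_le v hcon
      have h2 : v (z0 : L) ≤ v ((z0 : L) - ∑ k ∈ J, (z k : L)) := by
        have e : (z0 : L) = ((z0 : L) - ∑ k ∈ J, (z k : L)) + ∑ k ∈ J, (z k : L) := by ring
        calc v (z0 : L) = v (((z0 : L) - ∑ k ∈ J, (z k : L)) + ∑ k ∈ J, (z k : L)) := by rw [← e]
          _ ≤ _ := (v.map_add _ _).trans (max_le le_rfl h1)
      exact absurd hsm (not_lt.2 h2)
    · have hi' : A.blk i' = j := hf0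
      exact ⟨i', Finset.mem_filter.2 ⟨Finset.mem_univ _, hi'⟩, by rw [hvz i' hi']; exact hsm⟩
  obtain ⟨l, hlJ, hl⟩ := hl
  refine Pool.Agent.Y797.IV.mem_unitPart_of_block v _ J z z0 (fun k hk => ?_) hlJ hl
  have hk' : A.blk k = j := (Finset.mem_filter.1 hk).2
  rw [if_pos hk]
  simp only [hρ, hz, hz0, dif_pos hk', hk']
  ext
  simp only [Units.val_mul, Units.val_neg, Units.val_div_eq_div_val, Units.val_mk0]
  have := (y (Sum.inl j)).ne_zero
  field_simp

end core

section main

variable {K : Type*} [Field K] {s d : ℕ} {A : Pencil K s d} {lam : K}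

variable {L : Type*} [Field L] (f : A.Open lam →+* L)

theorem both_mem (hA : A.Valid) (h1 : IsIntegral ℤ lam) (h2 : IsIntegral ℤ lam⁻¹) (h0 : lam ≠ 0)
    (v : Valuation L ℤᵐ⁰) :
    KQ.map (d + 1) f (A.alpha lam) ∈ unitPart v (d + 1) ∧
      KQ.map (d + 1) f (A.beta lam) ∈ unitPart v (d + 1) := by
  classical
  obtain ⟨hru, hz, hinv, hc0⟩ := hA
  set F : MvPolynomial (Fin (d + 1)) K →+* L := f.comp (A.toO lam) with hF
  set cL : K →+* L := F.comp C with hcL
  have hlam1 : v (cL lam) = 1 := by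
    have e1 : v (cL lam) ≤ 1 :=
      Pool.Agent.TH826.MK.val_le_one_of_integral v (map_isIntegral_int _ h1)
    have e2 : v (cL lam⁻¹) ≤ 1 :=
      Pool.Agent.TH826.MK.val_le_one_of_integral v (map_isIntegral_int _ h2)
    have e3 : v (cL lam) * v (cL lam⁻¹) = 1 := by
      rw [← map_mul, ← map_mul, mul_inv_cancel₀ h0, map_one, map_one]
    refine le_antisymm e1 ?_
    calc (1 : ℤᵐ⁰) = v (cL lam) * v (cL lam⁻¹) := e3.symm
      _ ≤ v (cL lam) * 1 := mul_le_mul' le_rfl e2
      _ = v (cL lam) := mul_one _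
  have hvru : ∀ x : K, IsRU x → v (cL x) = 1 := by
    rintro x ⟨m, hm, h⟩
    exact val_root v hm (by rw [← map_pow, h, map_one])
  set x : E s d → Lˣ := fun e => Units.map (f : A.Open lam →* L) (A.ux lam e) with hx
  set y : E s d → Lˣ := fun e => Units.map (f : A.Open lam →* L) (A.um lam e) with hy
  have hxl : ∀ j, (x (Sum.inl j) : L) = 1 := fun j => by
    show F 1 = 1
    exact map_one F
  have hyx : ∀ e, (y e : L) = ∑ g, cL (A.H e g) * x g := fun e => by
    show F (A.pm e) = _
    unfold Pencil.pm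
    rw [map_sum]
    refine Finset.sum_congr rfl fun g _ => ?_
    rw [map_mul]
    rfl
  have hxy : ∀ e, cL (A.c (A.b e)) * x e = ∑ g, cL (A.G g e) * y g := by
    intro e
    simp only [hyx, Finset.mul_sum]
    rw [Finset.sum_comm]
    have e1 : ∀ g, ∑ k, cL (A.G k e) * (cL (A.H k g) * (x g : L)) =
        cL (if e = g then A.c (A.b e) else 0) * x g := by
      intro g
      rw [← hinv e g, map_sum, Finset.sum_mul]
      refine Finset.sum_congr rfl fun k _ => ?_
      rw [map_mul]
      ring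
    simp only [e1]
    rw [Finset.sum_eq_single e]
    · rw [if_pos rfl]
    · intro g _ hg
      rw [if_neg (Ne.symm hg), map_zero, zero_mul]
    · intro h
      exact absurd (Finset.mem_univ e) h
  have hprod : ∏ e, v (x e : L) = ∏ e, v (y e : L) := by
    have h := A.prod_of_hom lam F (by rw [hF, RingHom.comp_apply, A.toO_eqn, map_zero])
    have e1 := congrArg v h
    rw [map_mul, map_prod, map_prod] at e1
    have e2 : v (F (C lam)) = 1 := hlam1
    rw [e2, one_mul] at e1
    have e3 : ∏ e, v (x e : L) = ∏ i, v (F (X i)) := by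
      rw [Fintype.prod_sum_type]
      have e4 : ∏ j, v (x (Sum.inl j) : L) = 1 :=
        Finset.prod_eq_one fun j _ => by rw [hxl, map_one]
      rw [e4, one_mul]
      rfl
    rw [e3, e1]
    rfl
  have hvc : ∀ e, v (cL (A.c (A.b e))) ≤ 1 := by
    intro e
    have e1 := hinv e e
    rw [if_pos rfl] at e1
    rw [← e1, map_sum]
    refine Valuation.map_sum_le v fun g _ => ?_
    rw [map_mul, map_mul]
    by_cases hg : A.b g = A.b e
    · rw [hvru _ (hru g e hg).1, hvru _ (hru g e hg).2, one_mul]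
    · rw [(hz g e hg).1, map_zero, map_zero, mul_zero]
      exact zero_le
  have hmax : ∀ u : E s d → Lˣ, ∃ m : Fin (s + 1) → E s d, (∀ j, A.b (m j) = j) ∧
      ∀ e, v (u e : L) ≤ v (u (m (A.b e)) : L) := by
    intro u
    have h : ∀ j, ∃ e, A.b e = j ∧ ∀ e', A.b e' = j → v (u e' : L) ≤ v (u e : L) := by
      intro j
      obtain ⟨e, he, hm⟩ := Finset.exists_max_image (Finset.univ.filter fun e => A.b e = j)
        (fun e => v (u e : L)) ⟨Sum.inl j, Finset.mem_filter.2 ⟨Finset.mem_univ _, rfl⟩⟩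
      exact ⟨e, (Finset.mem_filter.1 he).2, fun e' he' =>
        hm e' (Finset.mem_filter.2 ⟨Finset.mem_univ _, he'⟩)⟩
    choose m hm1 hm2 using h
    exact ⟨m, hm1, fun e => hm2 _ e rfl⟩
  have hne : ∀ u : Lˣ, v (u : L) ≠ 0 := fun u => (Valuation.ne_zero_iff v).2 u.ne_zero
  have hunit : ∀ u : E s d → Lˣ, ∀ m : Fin (s + 1) → E s d,
      (∀ e, v (u e : L) = v (u (m (A.b e)) : L)) →
      symb (fun i => u (Sum.inr i) / u (Sum.inl (A.blk i))) ∈ unitPart v (d + 1) := by
    intro u m h
    refine Submodule.subset_span ⟨_, fun i => ?_, rfl⟩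
    rw [Units.val_div_eq_div_val, map_div₀, h (Sum.inr i), h (Sum.inl (A.blk i))]
    exact div_self (hne _)
  have hq : ∀ u : E s d → (A.Open lam)ˣ, KQ.map (d + 1) f (A.qsymb lam u) =
      symb (fun i => Units.map (f : A.Open lam →* L) (u (Sum.inr i)) /
        Units.map (f : A.Open lam →* L) (u (Sum.inl (A.blk i)))) := by
    intro u
    unfold Pencil.qsymb
    rw [KQ.map_symb]
    simp only [map_div]
  constructor
  · unfold Pencil.alpha
    rw [hq]
    obtain ⟨m, hm1, hm2⟩ := hmax x
    have hle : ∀ e, v (y e : L) ≤ v (x (m (A.b e)) : L) := by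
      intro e
      rw [hyx]
      refine Valuation.map_sum_le v fun g _ => ?_
      by_cases hg : A.b e = A.b g
      · rw [map_mul, hvru _ (hru e g hg).1, one_mul, hg]
        exact hm2 g
      · rw [(hz e g hg).1, map_zero, zero_mul, map_zero]
        exact zero_le
    by_cases hex : ∃ e, v (y e : L) < v (x (m (A.b e)) : L)
    · obtain ⟨e, he⟩ := hex
      refine mem_of_relation (A := A) v x (fun g => cL (A.H e g)) (j := A.b e)
        (fun g hg => ?_) (fun g hg => ?_) (hm1 (A.b e)) ?_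
      · obtain ⟨k, hk, h⟩ := (hru e g hg.symm).1
        exact ⟨k, hk, by rw [← map_pow, h, map_one]⟩
      · rw [(hz e g (Ne.symm hg)).1, map_zero]
      · rw [← hyx]
        exact he
    · push Not at hex
      refine hunit x m fun e => ?_
      refine eq_of_prod_eq (fun e => hm2 e) (fun e => hne _) ?_ e
      rw [hprod]
      exact Finset.prod_le_prod' fun e _ => hex e
  · unfold Pencil.beta
    rw [hq]
    obtain ⟨m, hm1, hm2⟩ := hmax y
    have hle : ∀ e, v (cL (A.c (A.b e)) * x e) ≤ v (y (m (A.b e)) : L) := by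
      intro e
      rw [hxy]
      refine Valuation.map_sum_le v fun g _ => ?_
      by_cases hg : A.b g = A.b e
      · rw [map_mul, hvru _ (hru g e hg).2, one_mul, ← hg]
        exact hm2 g
      · rw [(hz g e hg).2, map_zero, zero_mul, map_zero]
        exact zero_le
    by_cases hex : ∃ e, v (cL (A.c (A.b e)) * x e) < v (y (m (A.b e)) : L)
    · obtain ⟨e, he⟩ := hex
      refine mem_of_relation (A := A) v y (fun g => cL (A.G g e)) (j := A.b e)
        (fun g hg => ?_) (fun g hg => ?_) (hm1 (A.b e)) ?_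
      · obtain ⟨k, hk, h⟩ := (hru g e hg).2
        exact ⟨k, hk, by rw [← map_pow, h, map_one]⟩
      · rw [(hz g e hg).2, map_zero]
      · rw [← hxy]
        exact he
    · push Not at hex
      refine hunit y m fun e => ?_
      refine eq_of_prod_eq (fun e => hm2 e) (fun e => hne _) ?_ e
      rw [← hprod]
      calc ∏ e, v (y (m (A.b e)) : L) ≤ ∏ e, v (cL (A.c (A.b e)) * x e) :=
            Finset.prod_le_prod' fun e _ => hex e
        _ ≤ ∏ e, v (x e : L) := by
            refine Finset.prod_le_prod' fun e _ => ?_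
            rw [map_mul]
            exact (mul_le_mul' (hvc e) le_rfl).trans_eq (one_mul _)

theorem both_unramified (hA : A.Valid) (h1 : IsIntegral ℤ lam) (h2 : IsIntegral ℤ lam⁻¹)
    (h0 : lam ≠ 0) :
    KQ.map (d + 1) f (A.alpha lam) ∈ Unramified L (d + 1) ∧
      KQ.map (d + 1) f (A.beta lam) ∈ Unramified L (d + 1) := by
  unfold Unramified
  simp only [Submodule.mem_iInf]
  exact ⟨fun v _ => (both_mem f hA h1 h2 h0 v).1, fun v _ => (both_mem f hA h1 h2 h0 v).2⟩

end main

end Pool.Agent.Y797.TP
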